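import Pool.Agent.H73.WM.Reg

/-!
# Project WM, module Cnt: the number of large order ideals

PLAN. `sum_ids_eq`: `sum_regroup` in `ℝ` with `f = 1`, `κ = (1 - q) / q`, multiplied by `q^|P|`: the left side is
`q^|P| (1 + κ)^|P| = 1` (`Finset.sum_pow_mul_eq_add_pow`), and `q^|P| κ^μ (1+κ)^(|I|-μ) = (1 - q)^μ q^(|P| - |I|)`
(`1 + κ = 1 / q`, `μ ≤ |I| ≤ |P|`). All terms are nonnegative.

`card_ids_le`: `p = 0`: the filter is contained in `{P}`, `1 ≤ 4`. `p ≥ 1`: `q = p / (p + 1)`, `1 - q = 1 / (p + 1)`; every `I`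
in the filter contributes at least `(1 / (p+1))^d q^p` to the sum (`1 - q ≤ 1`, `μ ≤ d`, `q ≤ 1`, `|P| - |I| ≤ p`), so the number
is `≤ (p+1)^d / q^p = (p+1)^d (1 + 1/p)^p ≤ 4 (p+1)^d`; `(1 + 1/p)^p ≤ exp 1 < 4` (`Real.add_one_le_exp`,
`Real.exp_one_lt_d9` or a similar name).
-/

set_option autoImplicit false

namespace Pool.Agent.H73.WM

open Pool.Agent.H73.HVN Pool.Agent.H26.HR Pool.Agent.H73.HM

universe u v

variable {B : Type v} {W : Type u} [Group W] {M : CoxeterMatrix B} (cs : CoxeterSystem M W)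
variable {χ : W →* ℤˣ}

theorem sum_ids_eq {P : Finset W} {x : W} (hPx : P ⊆ nl cs χ x) (hP : IsId cs χ P) {q : ℝ}
    (h0 : 0 < q) :
    ∑ I ∈ ids cs χ P, (1 - q) ^ (mx cs I).card * q ^ (P.card - I.card) = 1 := by
  have hq : q ≠ 0 := h0.ne'
  have hκ : 1 + (1 - q) / q = 1 / q := by
    field_simp
    ring
  have h1 := sum_regroup cs hPx hP ((1 - q) / q) (fun _ => (1 : ℝ)) (fun _ _ => rfl)
  have h2 : ∑ A ∈ P.powerset, ((1 - q) / q) ^ A.card * (1 : ℝ) = (1 / q) ^ P.card := by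
    rw [← hκ, add_comm, ← Finset.sum_pow_mul_eq_add_pow]
    exact Finset.sum_congr rfl (fun A _ => by rw [one_pow])
  have h3 : q ^ P.card * (1 / q) ^ P.card = 1 := by
    rw [← mul_pow, mul_one_div_cancel hq, one_pow]
  suffices hs : ∑ I ∈ ids cs χ P, (1 - q) ^ (mx cs I).card * q ^ (P.card - I.card) =
      q ^ P.card * ∑ A ∈ P.powerset, ((1 - q) / q) ^ A.card * (1 : ℝ) by
    rw [hs, h2, h3]
  rw [h1, Finset.mul_sum]
  refine Finset.sum_congr rfl (fun I hI => ?_)
  have hIP : I ⊆ P := (mem_ids.1 hI).1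
  have hmI : mx cs I ⊆ I := fun t ht => (mem_mx.1 ht).1
  have c1 := Finset.card_le_card hIP
  have c2 := Finset.card_le_card hmI
  have e : q ^ P.card = q ^ (P.card - I.card) * (q ^ (I.card - (mx cs I).card) * q ^ (mx cs I).card) := by
    rw [← pow_add, ← pow_add]
    congr 1
    omega
  have e1 : ((1 - q) / q) ^ (mx cs I).card * q ^ (mx cs I).card = (1 - q) ^ (mx cs I).card := by
    rw [← mul_pow, div_mul_cancel₀ _ hq]
  have e2 : (1 / q) ^ (I.card - (mx cs I).card) * q ^ (I.card - (mx cs I).card) = 1 := by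
    rw [← mul_pow, one_div_mul_cancel hq, one_pow]
  rw [hκ, e]
  calc (1 - q) ^ (mx cs I).card * q ^ (P.card - I.card)
      = (((1 - q) / q) ^ (mx cs I).card * q ^ (mx cs I).card) *
          ((1 / q) ^ (I.card - (mx cs I).card) * q ^ (I.card - (mx cs I).card)) *
          q ^ (P.card - I.card) := by rw [e1, e2, mul_one]
    _ = _ := by ring

private theorem cnt_pow_le {p : ℕ} (hp : 0 < p) : (((p : ℝ) + 1) / p) ^ p ≤ 4 := by
  have hp' : (0 : ℝ) < p := by exact_mod_cast hp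
  have h1 : ((p : ℝ) + 1) / p ≤ Real.exp (1 / p) := by
    have := Real.add_one_le_exp (1 / (p : ℝ))
    have e : ((p : ℝ) + 1) / p = 1 / p + 1 := by
      field_simp
      ring
    rw [e]
    exact this
  have h2 : (((p : ℝ) + 1) / p) ^ p ≤ Real.exp (1 / p) ^ p :=
    pow_le_pow_left₀ (by positivity) h1 p
  have h3 : Real.exp (1 / (p : ℝ)) ^ p = Real.exp 1 := by
    rw [← Real.exp_nat_mul]
    congr 1
    field_simp
  have h4 := Real.exp_one_lt_d9
  rw [h3] at h2
  linarith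

open Classical in
/-- (4) -/
theorem card_ids_le {P : Finset W} {x : W} (hPx : P ⊆ nl cs χ x) (hP : IsId cs χ P) {d : ℕ}
    (hd : ∀ I ∈ ids cs χ P, (mx cs I).card ≤ d) (p : ℕ) :
    (((ids cs χ P).filter (fun I => P.card ≤ I.card + p)).card : ℝ) ≤ 4 * ((p : ℝ) + 1) ^ d := by
  rcases Nat.eq_zero_or_pos p with rfl | hp
  · have hsub : (ids cs χ P).filter (fun I => P.card ≤ I.card + 0) ⊆ {P} := by
      intro I hI
      rw [Finset.mem_filter] at hI
      rw [Finset.mem_singleton]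
      exact Finset.eq_of_subset_of_card_le (mem_ids.1 hI.1).1 (by simpa using hI.2)
    have h1 : ((ids cs χ P).filter (fun I => P.card ≤ I.card + 0)).card ≤ 1 := by
      simpa using Finset.card_le_card hsub
    have h2 : (((ids cs χ P).filter (fun I => P.card ≤ I.card + 0)).card : ℝ) ≤ 1 := by
      exact_mod_cast h1
    have h3 : (4 : ℝ) * (((0 : ℕ) : ℝ) + 1) ^ d = 4 := by simp
    rw [h3]
    linarith
  · have hp' : (0 : ℝ) < p := by exact_mod_cast hp
    have hp1 : (0 : ℝ) < (p : ℝ) + 1 := by linarith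
    set q : ℝ := (p : ℝ) / ((p : ℝ) + 1) with hqdef
    have hq0 : 0 < q := div_pos hp' hp1
    have hq1 : 1 - q = 1 / ((p : ℝ) + 1) := by
      rw [hqdef]
      field_simp
      ring
    have hqle : q ≤ 1 := by
      have : 0 < 1 - q := by rw [hq1]; positivity
      linarith
    have h1q0 : 0 ≤ 1 - q := by linarith
    have h1q1 : 1 - q ≤ 1 := by linarith
    have hsum := sum_ids_eq cs hPx hP hq0
    set N := (ids cs χ P).filter (fun I => P.card ≤ I.card + p) with hN
    have hle : ∑ I ∈ N, (1 - q) ^ (mx cs I).card * q ^ (P.card - I.card) ≤ 1 := by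
      have hNs : N ⊆ ids cs χ P := Finset.filter_subset _ _
      exact (Finset.sum_le_sum_of_subset_of_nonneg hNs (fun I _ _ =>
        mul_nonneg (pow_nonneg h1q0 _) (pow_nonneg hq0.le _))).trans hsum.le
    have hge : (N.card : ℝ) * ((1 - q) ^ d * q ^ p) ≤
        ∑ I ∈ N, (1 - q) ^ (mx cs I).card * q ^ (P.card - I.card) := by
      rw [← nsmul_eq_mul, ← Finset.sum_const]
      refine Finset.sum_le_sum (fun I hI => ?_)
      rw [hN, Finset.mem_filter] at hI
      refine mul_le_mul ?_ ?_ (pow_nonneg hq0.le _) (pow_nonneg h1q0 _)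
      · exact pow_le_pow_of_le_one h1q0 h1q1 (hd I hI.1)
      · refine pow_le_pow_of_le_one hq0.le hqle ?_
        have := hI.2
        omega
    have hb := hge.trans hle
    have e1 : (1 - q) ^ d * ((p : ℝ) + 1) ^ d = 1 := by
      rw [← mul_pow, hq1, one_div_mul_cancel hp1.ne', one_pow]
    have e2 : q ^ p * (((p : ℝ) + 1) / p) ^ p = 1 := by
      rw [← mul_pow, hqdef]
      have : (p : ℝ) / ((p : ℝ) + 1) * (((p : ℝ) + 1) / p) = 1 := by
        field_simp
      rw [this, one_pow]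
    have h4 := cnt_pow_le hp
    have hpos : (0 : ℝ) ≤ ((p : ℝ) + 1) ^ d := by positivity
    have hpos2 : (0 : ℝ) ≤ ((p : ℝ) + 1) ^ d * (((p : ℝ) + 1) / p) ^ p := by positivity
    calc (N.card : ℝ)
        = (N.card : ℝ) * ((1 - q) ^ d * q ^ p) *
            (((p : ℝ) + 1) ^ d * (((p : ℝ) + 1) / p) ^ p) := by
          have : (N.card : ℝ) * ((1 - q) ^ d * q ^ p) *
            (((p : ℝ) + 1) ^ d * (((p : ℝ) + 1) / p) ^ p) =
            (N.card : ℝ) * (((1 - q) ^ d * ((p : ℝ) + 1) ^ d) *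
              (q ^ p * (((p : ℝ) + 1) / p) ^ p)) := by ring
          rw [this, e1, e2, mul_one, mul_one]
      _ ≤ 1 * (((p : ℝ) + 1) ^ d * (((p : ℝ) + 1) / p) ^ p) :=
          mul_le_mul_of_nonneg_right hb hpos2
      _ ≤ 4 * ((p : ℝ) + 1) ^ d := by nlinarith

end Pool.Agent.H73.WM
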