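import Pool.Agent.H73.WM.ConeA

/-!
# Project WM, module Cone: the values of the form on pairs of crossing walls

PLAN. (d) Let `V` be the set of all `bf M γ γ'`, `γ, γ'` roots supported on a `T ⊆ B` such that the set of all roots supported on `T` is
finite, without the number `2`. `V` is finite (finite union over the subsets `T` of the finite set `B`).
(e) Given `α, β, x₁, …, x₄` as in the theorem, let `f_k(γ) = ∑ i, (rep x_k γ) i`. The four vectors `(f_k(α), f_k(β))` are in the
four open quadrants (`sum_pos_of_nn`, `sum_neg_of_nn`), so there are `c_k > 0` with `fn c x α = fn c x β = 0` (module-free lemma on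
real numbers: combine `1, 2` such that the value at `β` is `0` and the one at `α` is `> 0`, combine `3, 4` such that the value at
`β` is `0` and the one at `α` is `< 0`, then combine both). By `exists_supp`: `bf α β = bf (rep w α) (rep w β)` (`bf_rep`) is in `V` or `2`.
(f) `bf α β ≠ 2`: otherwise, for the roots `α' = rep w α`, `β' = rep w β` supported on `T`, `(n + 1) α' - n β'` and
`(n + 1) β' - n α'` are roots for all `n` (induction: `n + 1` from `n` by `root_neg (root_reflect ..)`: the reflection in `α'` of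
`(n+1) β' - n α'` is `(n+1) β' - (n+2) α'`), they are different for different `n` as `α' ≠ β'`, and in the finite set of the roots
supported on `T`: contradiction.
-/

set_option autoImplicit false

namespace Pool.Agent.H73.WM

open Pool.Agent.H4.FC

universe u

section

variable {B : Type} [Fintype B] [DecidableEq B] {W : Type u} [Group W] {M : CoxeterMatrix B}
  (cs : CoxeterSystem M W)

omit [DecidableEq B] in
private theorem Cone_bf_sub (x y z : B → ℝ) : bf M x (y - z) = bf M x y - bf M x z := by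
  unfold bf
  rw [← Finset.sum_sub_distrib]
  refine Finset.sum_congr rfl fun i _ => ?_
  rw [← Finset.sum_sub_distrib]
  refine Finset.sum_congr rfl fun j _ => ?_
  rw [Pi.sub_apply]
  ring

omit [DecidableEq B] in
private theorem Cone_bf_smul (c : ℝ) (x y : B → ℝ) : bf M x (c • y) = c * bf M x y := by
  unfold bf
  rw [Finset.mul_sum]
  refine Finset.sum_congr rfl fun i _ => ?_
  rw [Finset.mul_sum]
  refine Finset.sum_congr rfl fun j _ => ?_
  rw [Pi.smul_apply, smul_eq_mul]
  ring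

omit [DecidableEq B] in
private theorem Cone_bf_symm (x y : B → ℝ) : bf M x y = bf M y x := by
  unfold bf
  rw [Finset.sum_comm]
  refine Finset.sum_congr rfl fun i _ => Finset.sum_congr rfl fun j _ => ?_
  rw [kR_symm M j i]
  ring

/-- four vectors in the four open quadrants have a positive combination which vanishes -/
private theorem Cone_quad {a b : Fin 4 → ℝ} (a0 : 0 < a 0) (b0 : 0 < b 0) (a1 : 0 < a 1)
    (b1 : b 1 < 0) (a2 : a 2 < 0) (b2 : 0 < b 2) (a3 : a 3 < 0) (b3 : b 3 < 0) :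
    ∃ c : Fin 4 → ℝ, (∀ k, 0 < c k) ∧ ∑ k, c k * a k = 0 ∧ ∑ k, c k * b k = 0 := by
  have hA : 0 < -b 1 * a 0 + b 0 * a 1 := by
    have h1 := mul_pos (neg_pos.2 b1) a0
    have h2 := mul_pos b0 a1
    linarith
  have hA' : 0 < -(-b 3 * a 2 + b 2 * a 3) := by
    have h1 := mul_pos (neg_pos.2 b3) (neg_pos.2 a2)
    have h2 := mul_pos b2 (neg_pos.2 a3)
    nlinarith
  set A := -b 1 * a 0 + b 0 * a 1 with hAd
  set A' := -(-b 3 * a 2 + b 2 * a 3) with hAd'
  refine ⟨![A' * -b 1, A' * b 0, A * -b 3, A * b 2], ?_, ?_, ?_⟩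
  · intro k
    fin_cases k
    · exact mul_pos hA' (neg_pos.2 b1)
    · exact mul_pos hA' b0
    · exact mul_pos hA (neg_pos.2 b3)
    · exact mul_pos hA b2
  · simp only [Fin.sum_univ_four, Matrix.cons_val]
    rw [hAd, hAd']
    ring
  · simp only [Fin.sum_univ_four, Matrix.cons_val]
    ring

private theorem Cone_roots {α β : B → ℝ} (hα : IsRt cs α) (hβ : IsRt cs β) (h : bf M α β = 2)
    (n : ℕ) : IsRt cs (((n : ℝ) + 1) • α - (n : ℝ) • β) ∧
      IsRt cs (((n : ℝ) + 1) • β - (n : ℝ) • α) := by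
  have h' : bf M β α = 2 := by rw [Cone_bf_symm, h]
  induction n with
  | zero =>
    simp only [Nat.cast_zero, zero_add, one_smul, zero_smul, sub_zero]
    exact ⟨hα, hβ⟩
  | succ n ih =>
    obtain ⟨h1, h2⟩ := ih
    constructor
    · have h3 := root_neg cs (root_reflect cs hα h2)
      rw [Cone_bf_sub, Cone_bf_smul, Cone_bf_smul, h, bf_root cs hα] at h3
      convert h3 using 1
      push_cast
      module
    · have h3 := root_neg cs (root_reflect cs hβ h1)
      rw [Cone_bf_sub, Cone_bf_smul, Cone_bf_smul, h', bf_root cs hβ] at h3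
      convert h3 using 1
      push_cast
      module

private theorem Cone_ne_two {α β : B → ℝ} (hα : IsRt cs α) (hβ : IsRt cs β) (hne : α ≠ β)
    {T : Set B} (hfin : {γ | IsRt cs γ ∧ ∀ i, i ∉ T → γ i = 0}.Finite)
    (hαT : ∀ i, i ∉ T → α i = 0) (hβT : ∀ i, i ∉ T → β i = 0) : bf M α β ≠ 2 := by
  intro h
  have hinj : Function.Injective (fun n : ℕ => ((n : ℝ) + 1) • α - (n : ℝ) • β) := by
    intro n m hnm
    by_contra hcon
    apply hne
    have h1 : ((n : ℝ) - m) • (α - β) = 0 := by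
      have h2 : ((n : ℝ) + 1) • α - (n : ℝ) • β = ((m : ℝ) + 1) • α - (m : ℝ) • β := hnm
      have h3 : ((n : ℝ) - m) • (α - β) =
          (((n : ℝ) + 1) • α - (n : ℝ) • β) - (((m : ℝ) + 1) • α - (m : ℝ) • β) := by module
      rw [h3, h2, sub_self]
    rcases smul_eq_zero.1 h1 with h2 | h2
    · exact absurd (by exact_mod_cast sub_eq_zero.1 h2) hcon
    · exact sub_eq_zero.1 h2
  refine (Set.infinite_range_of_injective hinj) (hfin.subset ?_)
  rintro _ ⟨n, rfl⟩
  refine ⟨(Cone_roots cs hα hβ h n).1, fun i hi => ?_⟩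
  simp only [Pi.sub_apply, Pi.smul_apply, smul_eq_mul]
  rw [hαT i hi, hβT i hi]
  ring

theorem exists_values : ∃ V : Finset ℝ, 2 ∉ V ∧ ∀ α β : B → ℝ, IsRt cs α → IsRt cs β → α ≠ β →
    ∀ x₁ x₂ x₃ x₄ : W,
      Nn ((rep cs x₁).mulVec α) → Nn ((rep cs x₁).mulVec β) →
      Nn ((rep cs x₂).mulVec α) → Nn (-(rep cs x₂).mulVec β) →
      Nn (-(rep cs x₃).mulVec α) → Nn ((rep cs x₃).mulVec β) →
      Nn (-(rep cs x₄).mulVec α) → Nn (-(rep cs x₄).mulVec β) → bf M α β ∈ V := by
  classical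
  set R : Set B → Set (B → ℝ) := fun T => {γ | IsRt cs γ ∧ ∀ i, i ∉ T → γ i = 0} with hR
  set U : Set ℝ := ⋃ T ∈ {T : Set B | (R T).Finite},
    ((fun p : (B → ℝ) × (B → ℝ) => bf M p.1 p.2) '' (R T ×ˢ R T)) with hU
  have hUfin : U.Finite := by
    rw [hU]
    refine Set.Finite.biUnion (Set.toFinite _) ?_
    intro T hT
    exact (Set.Finite.prod hT hT).image _
  refine ⟨(hUfin.subset (Set.sdiff_subset (t := {2}))).toFinset, ?_, ?_⟩
  · intro h
    rw [Set.Finite.mem_toFinset] at h
    exact h.2 rfl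
  intro α β hα hβ hne x₁ x₂ x₃ x₄ h1a h1b h2a h2b h3a h3b h4a h4b
  obtain ⟨c, hc, ha, hb⟩ := Cone_quad
    (a := fun k => ∑ i, (rep cs (![x₁, x₂, x₃, x₄] k)).mulVec α i)
    (b := fun k => ∑ i, (rep cs (![x₁, x₂, x₃, x₄] k)).mulVec β i)
    (sum_pos_of_nn cs hα h1a) (sum_pos_of_nn cs hβ h1b) (sum_pos_of_nn cs hα h2a)
    (sum_neg_of_nn cs hβ h2b) (sum_neg_of_nn cs hα h3a) (sum_pos_of_nn cs hβ h3b)
    (sum_neg_of_nn cs hα h4a) (sum_neg_of_nn cs hβ h4b)
  obtain ⟨w, T, hfin, hsupp⟩ := exists_supp cs hc ![x₁, x₂, x₃, x₄]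
  have hα' := root_rep cs hα w
  have hβ' := root_rep cs hβ w
  have hαT := hsupp α hα ha
  have hβT := hsupp β hβ hb
  have hne' : (rep cs w).mulVec α ≠ (rep cs w).mulVec β := by
    intro h
    apply hne
    have h2 := congrArg (fun v => (rep cs w⁻¹).mulVec v) h
    simp only [← rep_mul_mulVec] at h2
    rwa [inv_mul_cancel, map_one, Matrix.one_mulVec, Matrix.one_mulVec] at h2
  rw [Set.Finite.mem_toFinset, ← bf_rep cs w α β]
  refine ⟨?_, Cone_ne_two cs hα' hβ' hne' hfin hαT hβT⟩
  rw [hU]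
  refine Set.mem_biUnion (x := T) hfin ?_
  exact ⟨((rep cs w).mulVec α, (rep cs w).mulVec β), ⟨⟨hα', hαT⟩, ⟨hβ', hβT⟩⟩, rfl⟩

end

end Pool.Agent.H73.WM
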