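import Pool.Agent.H73.WM.Rt2

/-!
# Project WM, module ConeA: functionals

A good functional is `F = ∑_k c_k f_{x_k}`, `c_k > 0`, `f_x(γ) = ∑ i, (rep x γ) i`. For a root `γ`: `f_x(γ) > 0` iff
`Nn (rep x γ)`, and `f_x(γ) < 0` iff `Nn (-rep x γ)` (`root_pos_or`, `root_ne_zero`, `root_rep`).

PLAN. `good_rep`: `f_x(rep v γ) = f_{x v}(γ)`.
`finite_nonpos`: `F γ ≤ 0` implies `f_{x_k}(γ) ≤ 0` for some `k`; `finite_neg`. `finite_zero`: `{F = 0}` is symmetric
(`root_neg`, `root_pos_or`).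
`exists_dominant`: take `w` such that the (finite: `finite_nonpos`, `good_rep`) number of the nonnegative roots `γ` with
`F (rep w⁻¹ γ) < 0` is minimal (`Nat.find` or `exists_minimal`); if `F (rep w⁻¹ e_s) < 0`, then `γ ↦ rep s γ` maps the set for `s w`
(that is, `F (rep w⁻¹ (rep s γ)) < 0`) injectively into the set for `w` without `e_s`
(`simple_pos`; `γ = e_s` is not in the set for `s w` as `rep s e_s = - e_s`): contradiction.
`exists_supp`: `F' = F ∘ rep w⁻¹ ≥ 0` on all `e_s`, `T = {s : F'(e_s) = 0}`, `F'` is linear: `F'(γ) = ∑ s, γ s * F'(e_s)`. `α' = rep w α`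
is a root with `F'(α') = F(α) = 0` and has a sign, so it is supported on `T`; all roots supported on `T` are in
`{F' = 0}`, which is finite by `finite_zero`.
-/

set_option autoImplicit false

namespace Pool.Agent.H73.WM

open Pool.Agent.H4.FC

universe u

section

variable {B : Type} [Fintype B] [DecidableEq B] {W : Type u} [Group W] {M : CoxeterMatrix B}
  (cs : CoxeterSystem M W)

/-- `∑_k c_k f_{x_k}` -/
noncomputable def fn (c : Fin 4 → ℝ) (x : Fin 4 → W) (γ : B → ℝ) : ℝ :=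
  ∑ k, c k * ∑ i, (rep cs (x k)).mulVec γ i

private theorem rep_rep (v : W) (γ : B → ℝ) :
    (rep cs v⁻¹).mulVec ((rep cs v).mulVec γ) = γ := by
  rw [← rep_mul_mulVec, inv_mul_cancel, map_one, Matrix.one_mulVec]

omit [DecidableEq B] in
private theorem sum_pos_aux {δ : B → ℝ} (hn : Nn δ) (h0 : δ ≠ 0) : 0 < ∑ i, δ i := by
  refine lt_of_le_of_ne (Finset.sum_nonneg (fun i _ => hn i)) ?_
  intro h
  apply h0
  have := (Finset.sum_eq_zero_iff_of_nonneg (fun i _ => hn i)).1 h.symm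
  funext i
  exact this i (Finset.mem_univ i)

theorem sum_pos_of_nn {γ : B → ℝ} (h : IsRt cs γ) {x : W} (hn : Nn ((rep cs x).mulVec γ)) :
    0 < ∑ i, (rep cs x).mulVec γ i :=
  sum_pos_aux hn (root_ne_zero cs (root_rep cs h x))

theorem sum_neg_of_nn {γ : B → ℝ} (h : IsRt cs γ) {x : W} (hn : Nn (-(rep cs x).mulVec γ)) :
    ∑ i, (rep cs x).mulVec γ i < 0 := by
  have h1 := sum_pos_aux hn (neg_ne_zero.2 (root_ne_zero cs (root_rep cs h x)))
  simp only [Pi.neg_apply, Finset.sum_neg_distrib] at h1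
  linarith

theorem fn_rep (c : Fin 4 → ℝ) (x : Fin 4 → W) (v : W) (γ : B → ℝ) :
    fn cs c x ((rep cs v).mulVec γ) = fn cs c (fun k => x k * v) γ := by
  unfold fn
  refine Finset.sum_congr rfl (fun k _ => ?_)
  rw [rep_mul_mulVec]

private theorem fn_neg (c : Fin 4 → ℝ) (x : Fin 4 → W) (γ : B → ℝ) :
    fn cs c x (-γ) = - fn cs c x γ := by
  unfold fn
  rw [← Finset.sum_neg_distrib]
  refine Finset.sum_congr rfl (fun k _ => ?_)
  rw [Matrix.mulVec_neg]
  simp only [Pi.neg_apply, Finset.sum_neg_distrib, mul_neg]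

private theorem fn_lin (c : Fin 4 → ℝ) (x : Fin 4 → W) (γ : B → ℝ) :
    fn cs c x γ = ∑ s, γ s * fn cs c x (Pi.single s 1) := by
  have h1 : ∀ k : Fin 4, ∀ i, (rep cs (x k)).mulVec γ i
      = ∑ s, γ s * (rep cs (x k)).mulVec (Pi.single s 1) i := by
    intro k i
    rw [Matrix.mulVec, dotProduct]
    refine Finset.sum_congr rfl (fun s _ => ?_)
    rw [Matrix.mulVec_single_one, Matrix.col_apply, mul_comm]
  unfold fn
  simp only [Finset.mul_sum]
  conv_rhs => rw [Finset.sum_comm]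
  refine Finset.sum_congr rfl (fun k _ => ?_)
  conv_rhs => rw [Finset.sum_comm]
  refine Finset.sum_congr rfl (fun i _ => ?_)
  rw [h1, Finset.mul_sum]
  refine Finset.sum_congr rfl (fun s _ => ?_)
  ring

theorem finite_nonpos {c : Fin 4 → ℝ} (hc : ∀ k, 0 < c k) (x : Fin 4 → W) :
    {γ | IsRt cs γ ∧ Nn γ ∧ fn cs c x γ ≤ 0}.Finite := by
  have hf : (⋃ k, {γ | IsRt cs γ ∧ Nn γ ∧ Nn (-(rep cs (x k)).mulVec γ)}).Finite :=
    Set.finite_iUnion (fun k => finite_neg cs (x k))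
  refine hf.subset ?_
  rintro γ ⟨h1, h2, h3⟩
  by_contra hcon
  simp only [Set.mem_iUnion, Set.mem_ofPred_eq, not_exists, not_and] at hcon
  have h4 : ∀ k, 0 < ∑ i, (rep cs (x k)).mulVec γ i := by
    intro k
    rcases root_pos_or cs (root_rep cs h1 (x k)) with h | h
    · exact sum_pos_of_nn cs h1 h
    · exact absurd h (hcon k h1 h2)
  have h5 : 0 < fn cs c x γ := by
    unfold fn
    exact Finset.sum_pos (fun k _ => mul_pos (hc k) (h4 k)) Finset.univ_nonempty
  linarith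

theorem finite_zero {c : Fin 4 → ℝ} (hc : ∀ k, 0 < c k) (x : Fin 4 → W) :
    {γ | IsRt cs γ ∧ fn cs c x γ = 0}.Finite := by
  have hf := finite_nonpos cs hc x
  refine (hf.union (hf.image (fun γ => -γ))).subset ?_
  rintro γ ⟨h1, h2⟩
  rcases root_pos_or cs h1 with h | h
  · exact Or.inl ⟨h1, h, h2.le⟩
  · refine Or.inr ⟨-γ, ⟨root_neg cs h1, h, ?_⟩, neg_neg γ⟩
    rw [fn_neg, h2, neg_zero]

theorem exists_dominant {c : Fin 4 → ℝ} (hc : ∀ k, 0 < c k) (x : Fin 4 → W) :
    ∃ w : W, ∀ s, 0 ≤ fn cs c x ((rep cs w⁻¹).mulVec (Pi.single s 1)) := by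
  classical
  have hfin : ∀ w : W, {γ | IsRt cs γ ∧ Nn γ ∧ fn cs c x ((rep cs w⁻¹).mulVec γ) < 0}.Finite := by
    intro w
    refine (finite_nonpos cs hc (fun k => x k * w⁻¹)).subset ?_
    rintro γ ⟨h1, h2, h3⟩
    exact ⟨h1, h2, by rw [← fn_rep]; exact h3.le⟩
  obtain ⟨w, hw⟩ : ∃ w : W, ∀ v : W, (hfin w).toFinset.card ≤ (hfin v).toFinset.card := by
    let S : Set ℕ := Set.range (fun w : W => (hfin w).toFinset.card)
    have hS : S.Nonempty := ⟨_, ⟨1, rfl⟩⟩
    obtain ⟨w, hw⟩ := Nat.sInf_mem hS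
    refine ⟨w, fun v => ?_⟩
    have h1 : (hfin w).toFinset.card = sInf S := hw
    rw [h1]
    exact Nat.sInf_le ⟨v, rfl⟩
  refine ⟨w, fun s => ?_⟩
  by_contra hcon
  have hneg : fn cs c x ((rep cs w⁻¹).mulVec (Pi.single s 1)) < 0 := not_le.1 hcon
  have hes : IsRt cs (Pi.single s 1) := ⟨1, s, by rw [map_one, Matrix.one_mulVec]⟩
  have hnn : Nn (Pi.single s 1 : B → ℝ) := by
    intro i
    by_cases hi : i = s
    · subst hi
      rw [Pi.single_eq_same]
      exact zero_le_one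
    · rw [Pi.single_eq_of_ne hi]
  have hb : bf M (Pi.single s 1) (Pi.single s 1) = 2 := bf_root cs hes
  have hse : (rep cs (cs.simple s)).mulVec (Pi.single s 1) = -(Pi.single s 1 : B → ℝ) := by
    rw [rep_simple_mulVec, hb]
    rw [two_smul]
    abel
  have hss : ∀ γ : B → ℝ, (rep cs (cs.simple s)).mulVec ((rep cs (cs.simple s)).mulVec γ) = γ := by
    intro γ
    rw [← rep_mul_mulVec, cs.simple_mul_simple_self, map_one, Matrix.one_mulVec]
  have hmem : Pi.single s 1 ∈ (hfin w).toFinset := by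
    rw [Set.Finite.mem_toFinset]
    exact ⟨hes, hnn, hneg⟩
  have hle : (hfin (cs.simple s * w)).toFinset.card ≤ ((hfin w).toFinset.erase (Pi.single s 1)).card := by
    refine Finset.card_le_card_of_injOn (fun γ => (rep cs (cs.simple s)).mulVec γ) ?_ ?_
    · intro γ hγ
      rw [Finset.mem_coe, Set.Finite.mem_toFinset] at hγ
      obtain ⟨h1, h2, h3⟩ := hγ
      rw [mul_inv_rev, cs.inv_simple, rep_mul_mulVec] at h3
      have hne : γ ≠ Pi.single s 1 := by
        rintro rfl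
        rw [hse, Matrix.mulVec_neg, fn_neg] at h3
        linarith
      have hp := simple_pos cs h1 h2 hne
      rw [Finset.mem_coe, Finset.mem_erase, Set.Finite.mem_toFinset]
      refine ⟨?_, root_rep cs h1 _, hp, h3⟩
      intro he
      replace he : (rep cs (cs.simple s)).mulVec γ = Pi.single s 1 := he
      have h4 : γ = -(Pi.single s 1 : B → ℝ) := by
        rw [← hss γ, he, hse]
      have h5 := h2 s
      rw [h4, Pi.neg_apply, Pi.single_eq_same] at h5
      linarith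
    · intro γ _ δ _ h
      have h1 := congrArg (fun η => (rep cs (cs.simple s)).mulVec η) h
      simp only [hss] at h1
      exact h1
  have h6 := Finset.card_erase_lt_of_mem hmem
  have h7 := hw (cs.simple s * w)
  omega

theorem exists_supp {c : Fin 4 → ℝ} (hc : ∀ k, 0 < c k) (x : Fin 4 → W) :
    ∃ (w : W) (T : Set B), {γ | IsRt cs γ ∧ ∀ i, i ∉ T → γ i = 0}.Finite ∧
      ∀ α, IsRt cs α → fn cs c x α = 0 → ∀ i, i ∉ T → (rep cs w).mulVec α i = 0 := by
  obtain ⟨w, hw⟩ := exists_dominant cs hc x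
  refine ⟨w, {s | fn cs c x ((rep cs w⁻¹).mulVec (Pi.single s 1)) = 0}, ?_, ?_⟩
  · refine (finite_zero cs hc (fun k => x k * w⁻¹)).subset ?_
    rintro γ ⟨h1, h2⟩
    refine ⟨h1, ?_⟩
    rw [fn_lin]
    refine Finset.sum_eq_zero (fun s _ => ?_)
    rw [← fn_rep]
    by_cases hs : fn cs c x ((rep cs w⁻¹).mulVec (Pi.single s 1)) = 0
    · rw [hs, mul_zero]
    · rw [h2 s hs, zero_mul]
  · intro α hα h0 i hi
    have h1 : ∑ s, (rep cs w).mulVec α s * fn cs c x ((rep cs w⁻¹).mulVec (Pi.single s 1)) = 0 := by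
      have h2 : fn cs c (fun k => x k * w⁻¹) ((rep cs w).mulVec α) = 0 := by
        rw [← fn_rep, rep_rep, h0]
      rw [fn_lin] at h2
      rw [← h2]
      refine Finset.sum_congr rfl (fun s _ => ?_)
      rw [fn_rep]
    have hi' : fn cs c x ((rep cs w⁻¹).mulVec (Pi.single i 1)) ≠ 0 := hi
    rcases root_pos_or cs (root_rep cs hα w) with h | h
    · have h3 := (Finset.sum_eq_zero_iff_of_nonneg (fun s _ => mul_nonneg (h s) (hw s))).1 h1 i
        (Finset.mem_univ i)
      exact (mul_eq_zero.1 h3).resolve_right hi'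
    · have h4 : ∑ s, (-(rep cs w).mulVec α) s * fn cs c x ((rep cs w⁻¹).mulVec (Pi.single s 1)) = 0 := by
        rw [← neg_eq_zero, ← Finset.sum_neg_distrib, ← h1]
        refine Finset.sum_congr rfl (fun s _ => ?_)
        rw [Pi.neg_apply]
        ring
      have h3 := (Finset.sum_eq_zero_iff_of_nonneg (fun s _ => mul_nonneg (h s) (hw s))).1 h4 i
        (Finset.mem_univ i)
      have h5 := (mul_eq_zero.1 h3).resolve_right hi'
      rw [Pi.neg_apply, neg_eq_zero] at h5
      exact h5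

end

end Pool.Agent.H73.WM
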