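import Pool.Agent.H73.HM.Map
import Pool.Agent.H73.HM.Level

/-!
# Project WM: definitions

`(W, S)` a Coxeter system, `L ⊆ S`, `χ` the character with `χ = 1` on `L` and `χ = -1` on `S ∖ L`. The walls of
type `L` are the reflections `t` with `χ t = 1`; `x` is beyond the wall of `t` if `cs.IsLeftInversion x t`.
-/

set_option autoImplicit false

namespace Pool.Agent.H73.WM

open Pool.Agent.H73.HVN Pool.Agent.H26.HR Pool.Agent.H73.HM

universe u v

variable {B : Type v} {W : Type u} [Group W] {M : CoxeterMatrix B} (cs : CoxeterSystem M W)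

/-- every chamber beyond the wall of `t` is beyond the wall of `t'` -/
def Wle (t' t : W) : Prop := ∀ x, cs.IsLeftInversion x t → cs.IsLeftInversion x t'

/-- order ideals of walls of type `L` -/
def IsId (χ : W →* ℤˣ) (I : Finset W) : Prop := ∀ t ∈ I, ∀ t', χ t' = 1 → Wle cs t' t → t' ∈ I

open Classical in
/-- the order ideals contained in `P` -/
noncomputable def ids (χ : W →* ℤˣ) (P : Finset W) : Finset (Finset W) :=
  P.powerset.filter (fun I => IsId cs χ I)

open Classical in
/-- the maximal elements -/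
noncomputable def mx (I : Finset W) : Finset W := I.filter (fun t => ∀ t' ∈ I, Wle cs t t' → t' = t)

open Classical in
/-- the down-closure in `P` -/
noncomputable def dn (P A : Finset W) : Finset W := P.filter (fun t' => ∃ t ∈ A, Wle cs t' t)

/-- the iterated differences with step `2` -/
noncomputable def Dg (g : ℕ → ℝ) (m p : ℕ) : ℝ :=
  ∑ j ∈ Finset.range (m + 1), (-1) ^ j * (m.choose j : ℝ) * g (p + 2 * j)

open Classical in
/-- the kernel for a function `g` -/
noncomputable def Fg (χ : W →* ℤˣ) (g : ℕ → ℝ) (X : W → W → ℂ) (z y : W) : ℂ :=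
  ∑ I ∈ ids cs χ (nl cs χ z⁻¹ ∩ nl cs χ y⁻¹),
    ((Dg g (mx cs I).card ((nl cs χ z⁻¹).card + (nl cs χ y⁻¹).card - 2 * I.card) : ℝ) : ℂ) *
      X (z * gc cs χ I) (y * gc cs χ I)

/-- the bound for the number of pairwise crossing walls of type `L` -/
def DimLe (χ : W →* ℤˣ) (d : ℕ) : Prop :=
  ∀ x, ∀ I ∈ ids cs χ (nl cs χ x), (mx cs I).card ≤ d

variable {cs}

theorem mem_ids {χ : W →* ℤˣ} {P I : Finset W} : I ∈ ids cs χ P ↔ I ⊆ P ∧ IsId cs χ I := by
  classical
  simp only [ids, Finset.mem_filter, Finset.mem_powerset]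

theorem mem_mx {I : Finset W} {t : W} :
    t ∈ mx cs I ↔ t ∈ I ∧ ∀ t' ∈ I, Wle cs t t' → t' = t := by
  classical
  simp only [mx, Finset.mem_filter]

theorem mem_dn {P A : Finset W} {t' : W} :
    t' ∈ dn cs P A ↔ t' ∈ P ∧ ∃ t ∈ A, Wle cs t' t := by
  classical
  simp only [dn, Finset.mem_filter]

end Pool.Agent.H73.WM
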