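import Pool.Agent.H73.WM.Defs

/-!
# Project WM, module Ord: the order of the walls

PLAN. `wle_antisymm`: choose `e` of minimal length with `t ∈ N(e)` (`Nat.find`, as in `Mix.exists_single`,
`Pool/Agent/H73/HM/Gate.lean`; e.g. `t ∈ N(t)`); `e ≠ 1`, let `s` be a right descent of `e`; `t ∉ N(e s)`, so
`e⁻¹ t e = s` (`inv_muls_iff`). By `h1`, `h2`: `t' ∈ N(e)` and `t' ∉ N(e s)` (otherwise `t ∈ N(e s)`), so `e⁻¹ t' e = s` too
(`t'` is a reflection as `t' ∈ N(e)`).

`dn_mem`: a `t'' ≤ t' ≤ t ∈ A` with `χ t'' = 1` is in `P` as `P` is an ideal, so in `dn P A`. `gc_dn`: `A ⊆ dn P A`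
(`wle_refl`) and `(∀ t ∈ dn P A, t ∈ N(x)) ↔ (∀ t ∈ A, t ∈ N(x))`, so `Gate cs χ A c` implies `Gate cs χ (dn P A) c`;
`Mix.gate_gc`, `Mix.gc_eq` (`HM/Map.lean`). `exists_mx`: every `t ∈ I` is below a maximal element of `I` (take `t' ∈ I` above `t`
such that the number of elements of `I` above `t'` is minimal; if `t' ≤ t''`, `t'' ∈ I`, `t'' ≠ t'`, then `t'` is not above `t''`
(`wle_antisymm`), so `t''` has fewer).
-/

set_option autoImplicit false

namespace Pool.Agent.H73.WM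

open Pool.Agent.H73.HVN Pool.Agent.H26.HR Pool.Agent.H73.HM

universe u v w

variable {B : Type v} {W : Type u} [Group W] {M : CoxeterMatrix B} (cs : CoxeterSystem M W)
variable {L : Set B} {χ : W →* ℤˣ}

theorem wle_refl (t : W) : Wle cs t t := fun _ h => h

theorem wle_trans {t t' t'' : W} (h : Wle cs t'' t') (h' : Wle cs t' t) : Wle cs t'' t :=
  fun x hx => h x (h' x hx)

theorem wle_antisymm {t t' : W} (ht : cs.IsReflection t) (h1 : Wle cs t' t) (h2 : Wle cs t t') :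
    t' = t := by
  classical
  have hex : ∃ n, ∃ e, cs.IsLeftInversion e t ∧ cs.length e = n := by
    refine ⟨_, t, ⟨ht, ?_⟩, rfl⟩
    rw [ht.mul_self, cs.length_one]
    exact Nat.pos_of_ne_zero (fun h => by
      have := ht.odd_length
      rw [h] at this
      exact absurd this (by decide))
  obtain ⟨e, he, hn⟩ := Nat.find_spec hex
  have hmin : ∀ e', cs.IsLeftInversion e' t → cs.length e ≤ cs.length e' := by
    intro e' he'
    rw [hn]
    exact Nat.find_min' hex ⟨e', he', rfl⟩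
  have he1 : e ≠ 1 := by
    rintro rfl
    exact not_inv_one cs t he
  obtain ⟨i, hi⟩ := cs.exists_rightDescent_of_ne_one he1
  have hlt : cs.length (e * cs.simple i) < cs.length e := hi
  have hz : ¬ cs.IsLeftInversion (e * cs.simple i) t := by
    intro h
    have := hmin _ h
    omega
  have he' : cs.IsLeftInversion e t' := h1 e he
  have hz' : ¬ cs.IsLeftInversion (e * cs.simple i) t' := fun h => hz (h2 _ h)
  have hte : e⁻¹ * t * e = cs.simple i := by
    rw [inv_muls_iff cs ht] at hz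
    tauto
  have hte' : e⁻¹ * t' * e = cs.simple i := by
    rw [inv_muls_iff cs he'.1] at hz'
    tauto
  rw [← hte] at hte'
  exact mul_left_cancel (mul_right_cancel hte')

/-- `N_L(x) ∩ N_L(y)` is an order ideal -/
theorem isId_nl (x : W) : IsId cs χ (nl cs χ x) := by
  intro t ht t' hχ h
  rw [mem_nl] at ht ⊢
  exact ⟨h x ht.1, hχ⟩

open Classical in
theorem isId_inter (x y : W) : IsId cs χ (nl cs χ x ∩ nl cs χ y) := by
  intro t ht t' hχ h
  rw [Finset.mem_inter] at ht ⊢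
  exact ⟨isId_nl cs x t ht.1 t' hχ h, isId_nl cs y t ht.2 t' hχ h⟩

/-- different maximal elements are not comparable -/
theorem mx_cross {I : Finset W} {t t' : W} (ht : t ∈ mx cs I) (ht' : t' ∈ mx cs I) (hne : t ≠ t') :
    ∃ x, cs.IsLeftInversion x t ∧ ¬ cs.IsLeftInversion x t' := by
  rw [mem_mx] at ht ht'
  by_contra hcon
  push Not at hcon
  exact hne (ht'.2 t ht.1 hcon)

/-- every element is below a maximal one -/
theorem exists_mx {I : Finset W} {x : W} (hI : I ⊆ nl cs χ x) {t : W} (ht : t ∈ I) :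
    ∃ t' ∈ mx cs I, Wle cs t t' := by
  classical
  have hex : ∃ n, ∃ t' ∈ I, Wle cs t t' ∧ (I.filter (fun s => Wle cs t' s)).card = n :=
    ⟨_, t, ht, wle_refl cs t, rfl⟩
  obtain ⟨t', ht', htt, hn⟩ := Nat.find_spec hex
  refine ⟨t', mem_mx.2 ⟨ht', fun u hu huw => ?_⟩, htt⟩
  by_contra hne
  have hlt : (I.filter (fun s => Wle cs u s)).card < (I.filter (fun s => Wle cs t' s)).card := by
    refine Finset.card_lt_card ⟨?_, ?_⟩
    · intro s hs
      rw [Finset.mem_filter] at hs ⊢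
      exact ⟨hs.1, wle_trans cs huw hs.2⟩
    · intro hsub
      have h1 : t' ∈ I.filter (fun s => Wle cs u s) :=
        hsub (Finset.mem_filter.2 ⟨ht', wle_refl cs t'⟩)
      have h2 := (Finset.mem_filter.1 h1).2
      have hr : cs.IsReflection t' := ((mem_nl cs).1 (hI ht')).1.1
      exact hne (wle_antisymm cs hr h2 huw)
  have h3 := Nat.find_min' hex ⟨u, hu, wle_trans cs htt huw, rfl⟩
  omega

theorem dn_mem {P A : Finset W} (hP : IsId cs χ P) (hPχ : ∀ t ∈ P, χ t = 1) (hA : A ⊆ P) :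
    dn cs P A ∈ ids cs χ P := by
  refine mem_ids.2 ⟨fun t ht => (mem_dn.1 ht).1, ?_⟩
  intro t ht t' hχ h
  obtain ⟨htP, u, hu, htu⟩ := mem_dn.1 ht
  exact mem_dn.2 ⟨hP t htP t' hχ h, u, hu, wle_trans cs h htu⟩

theorem gc_dn (hM : Mix cs L χ) {P A : Finset W} {x : W} (hP : P ⊆ nl cs χ x) (hA : A ⊆ P)
    {X : W → W → ℂ} (hX : RInv cs L X) (z y : W) :
    X (z * gc cs χ (dn cs P A)) (y * gc cs χ (dn cs P A)) =
      X (z * gc cs χ A) (y * gc cs χ A) := by
  have hAx : A ⊆ nl cs χ x := fun t ht => hP (hA ht)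
  have hDx : dn cs P A ⊆ nl cs χ x := fun t ht => hP (mem_dn.1 ht).1
  have hsub : A ⊆ dn cs P A := fun t ht => mem_dn.2 ⟨hA ht, t, ht, wle_refl cs t⟩
  have hg := hM.gate_gc cs hAx
  have hg2 : Gate cs χ (dn cs P A) (gc cs χ A) := by
    refine ⟨?_, fun y hy ρ hρχ hρ => hg.2 y (fun t ht => hy t (hsub ht)) ρ hρχ hρ⟩
    intro t' ht'
    obtain ⟨_, t, ht, h⟩ := mem_dn.1 ht'
    exact h _ (hg.1 t ht)
  exact hM.gc_eq cs hDx hg2 hX z y

end Pool.Agent.H73.WM
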