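import Mathlib

/-!
# Project WM, module PolyM: few values of a form

PLAN. Let `b i j = ∑ u, ∑ v, k u v * a i u * a j v`, `N = V.card`. For `i : Fin n` and `x : B → ℝ` let
`f_i(x) = ∏_{c ∈ V} ((∑ v, (∑ u, k u v * a i u) * x v) - c)`. `f_i(a_j) = ∏_{c ∈ V} (b i j - c)` is `0` for `i ≠ j` and nonzero for
`i = j`. Index the elements of `V` by `Fin N` and write each factor as `∑ o : Option B, l_{i,c}(o) * x̂(o)` with
`x̂(none) = 1`, `x̂(some v) = x v`; by `Finset.prod_univ_sum` (`Fintype.piFinset`)
`f_i(x) = ∑_{m : V → Option B} (∏_c l_{i,c}(m c)) * ∏_c x̂(m c)`. So the `n × n` diagonal invertible matrix `(f_i(a_j))` is a product of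
an `n × D` matrix and a `D × n` matrix with `D = |V → Option B| = (|B| + 1)^N`, so `n ≤ D` (rank; or: the `n` vectors
`(∏_c l_{i,c}(m c))_m` are linearly independent: `LinearIndependent.fintype_card_le_finrank`).
-/

set_option autoImplicit false

namespace Pool.Agent.H73.WM

theorem poly_bound {B : Type} [Fintype B] (k : B → B → ℝ) (V : Finset ℝ) (h2 : (2 : ℝ) ∉ V) {n : ℕ}
    (a : Fin n → B → ℝ) (hd : ∀ i, ∑ u, ∑ v, k u v * a i u * a i v = 2)
    (hv : ∀ i j, i ≠ j → ∑ u, ∑ v, k u v * a i u * a j v ∈ V) :
    n ≤ (Fintype.card B + 1) ^ V.card := by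
  classical
  -- the coefficients of the factors and the values of the coordinates
  let l : Fin n → V → Option B → ℝ := fun i c o =>
    o.elim (-(c : ℝ)) fun v => ∑ u, k u v * a i u
  let xh : Fin n → Option B → ℝ := fun j o => o.elim 1 fun v => a j v
  let w : Fin n → (V → Option B) → ℝ := fun i m => ∏ c, l i c (m c)
  let xx : Fin n → (V → Option B) → ℝ := fun j m => ∏ c, xh j (m c)
  have hfac : ∀ i j (c : V), ∑ o, l i c o * xh j o
      = (∑ u, ∑ v, k u v * a i u * a j v) - (c : ℝ) := by
    intro i j c
    rw [Fintype.sum_option]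
    have e1 : l i c none * xh j none = -(c : ℝ) := by
      simp only [l, xh, Option.elim_none, mul_one]
    have e2 : ∀ v : B, l i c (some v) * xh j (some v) = ∑ u, k u v * a i u * a j v := by
      intro v
      simp only [l, xh, Option.elim_some, Finset.sum_mul]
    rw [e1, Finset.sum_congr rfl fun v _ => e2 v, Finset.sum_comm]
    ring
  have hprod : ∀ i j, ∑ m, w i m * xx j m
      = ∏ c : V, ((∑ u, ∑ v, k u v * a i u * a j v) - (c : ℝ)) := by
    intro i j
    have e := Finset.prod_univ_sum (fun _ : V => (Finset.univ : Finset (Option B)))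
      (fun c o => l i c o * xh j o)
    rw [Fintype.piFinset_univ] at e
    rw [← Finset.prod_congr rfl fun c _ => hfac i j c, e]
    refine Finset.sum_congr rfl fun m _ => ?_
    rw [Finset.prod_mul_distrib]
  have hoff : ∀ i j, i ≠ j → ∑ m, w i m * xx j m = 0 := by
    intro i j hij
    rw [hprod]
    exact Finset.prod_eq_zero (Finset.mem_univ ⟨_, hv i j hij⟩) (sub_self _)
  have hdiag : ∀ i, ∑ m, w i m * xx i m ≠ 0 := by
    intro i
    rw [hprod, Finset.prod_ne_zero_iff]
    intro c _
    rw [hd i]
    intro h0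
    apply h2
    have : (c : ℝ) = 2 := by linarith
    rw [← this]
    exact c.2
  have hli : LinearIndependent ℝ w := by
    rw [Fintype.linearIndependent_iff]
    intro g hg j
    have h1 : ∑ i, g i * ∑ m, w i m * xx j m = 0 := by
      have e : ∀ i, g i * ∑ m, w i m * xx j m = ∑ m, (g i • w i) m * xx j m := by
        intro i
        rw [Finset.mul_sum]
        refine Finset.sum_congr rfl fun m _ => ?_
        rw [Pi.smul_apply, smul_eq_mul, mul_assoc]
      rw [Finset.sum_congr rfl fun i _ => e i, Finset.sum_comm]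
      refine Finset.sum_eq_zero fun m _ => ?_
      rw [← Finset.sum_mul, ← Finset.sum_apply, hg, Pi.zero_apply, zero_mul]
    rw [Finset.sum_eq_single j (fun i _ hij => by rw [hoff i j hij, mul_zero])
      (fun h => absurd (Finset.mem_univ j) h)] at h1
    exact (mul_eq_zero.mp h1).resolve_right (hdiag j)
  have hcard := hli.fintype_card_le_finrank
  rw [Module.finrank_pi, Fintype.card_fun, Fintype.card_option, Fintype.card_fin,
    Fintype.card_coe] at hcard
  exact hcard

end Pool.Agent.H73.WM
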