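import Pool.Agent.H73.WM.Cone
import Pool.Agent.H73.WM.PolyM
import Pool.Agent.H73.WM.Ord

/-!
# Project WM, module Dim: the number of pairwise crossing walls is bounded

PLAN. `exists_dim`: `d = (|B| + 1)^|V|` with `V` from `exists_values`. Let `F` be as in the theorem, `γ_t` the root of `t ∈ F`
(`exists_root`, `choose`). For `t ≠ t'` in `F`: `x₁ = 1` (`1` is beyond no wall; `rep 1 = 1`), `x₄ = x₀⁻¹`, `x₃ = x⁻¹` with `x` beyond
`t`, not beyond `t'`, `x₂ = x'⁻¹` with `x'` beyond `t'`, not beyond `t` (`root_pos_or` and `root_rep` turn the negation of `Nn (-v)` into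
`Nn v`). `γ_t ≠ γ_t'` as `x` distinguishes them. So `bf γ_t γ_t' ∈ V`, and `poly_bound` with an enumeration
`F.equivFin`, `k = kR M` (`bf` unfolds to the sum) and `bf_root`.

`exists_dimLe`: `I ∈ ids (nl x)`, `F = mx I`, `x₀ = x`: `mx_cross`.
-/

set_option autoImplicit false

namespace Pool.Agent.H73.WM

open Pool.Agent.H4.FC Pool.Agent.H73.HM

universe u

section

variable {B : Type} [Finite B] {W : Type u} [Group W] {M : CoxeterMatrix B}
  (cs : CoxeterSystem M W)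

/-- (3) -/
theorem exists_dim : ∃ d : ℕ, ∀ (x₀ : W) (F : Finset W), (∀ t ∈ F, cs.IsLeftInversion x₀ t) →
    (∀ t ∈ F, ∀ t' ∈ F, t ≠ t' → ∃ x, cs.IsLeftInversion x t ∧ ¬ cs.IsLeftInversion x t') →
    F.card ≤ d := by
  classical
  have : Fintype B := Fintype.ofFinite B
  obtain ⟨V, h2, hV⟩ := exists_values cs
  refine ⟨(Fintype.card B + 1) ^ V.card, fun x₀ F hF hne => ?_⟩
  have hr := fun t : F => exists_root cs (hF t t.2).1
  choose γ hγ using hr
  have neg_of : ∀ (t : F) (x : W), ¬ cs.IsLeftInversion x t → Nn ((rep cs x⁻¹).mulVec (γ t)) := by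
    intro t x hx
    rcases root_pos_or cs (root_rep cs (hγ t).1 x⁻¹) with h | h
    · exact h
    · exact absurd (((hγ t).2.2 x).2 h) hx
  have hval : ∀ t t' : F, t ≠ t' → bf M (γ t) (γ t') ∈ V := by
    intro t t' htt
    have htt' : (t : W) ≠ t' := fun h => htt (Subtype.ext h)
    obtain ⟨x, hx1, hx2⟩ := hne t t.2 t' t'.2 htt'
    obtain ⟨y, hy1, hy2⟩ := hne t' t'.2 t t.2 htt'.symm
    have hγne : γ t ≠ γ t' := by
      intro h
      have h1 := ((hγ t).2.2 x).1 hx1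
      rw [h] at h1
      exact hx2 (((hγ t').2.2 x).2 h1)
    refine hV (γ t) (γ t') (hγ t).1 (hγ t').1 hγne 1 y⁻¹ x⁻¹ x₀⁻¹ ?_ ?_ ?_ ?_ ?_ ?_ ?_ ?_
    · rw [map_one, Matrix.one_mulVec]; exact (hγ t).2.1
    · rw [map_one, Matrix.one_mulVec]; exact (hγ t').2.1
    · exact neg_of t y hy2
    · exact ((hγ t').2.2 y).1 hy1
    · exact ((hγ t).2.2 x).1 hx1
    · exact neg_of t' x hx2
    · exact ((hγ t).2.2 x₀).1 (hF t t.2)
    · exact ((hγ t').2.2 x₀).1 (hF t' t'.2)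
  refine poly_bound (kR M) V h2 (fun i => γ (F.equivFin.symm i)) (fun i => ?_) (fun i j hij => ?_)
  · exact bf_root cs (hγ (F.equivFin.symm i)).1
  · exact hval _ _ fun h => hij (F.equivFin.symm.injective h)

theorem exists_dimLe (χ : W →* ℤˣ) : ∃ d : ℕ, DimLe cs χ d := by
  obtain ⟨d, hd⟩ := exists_dim cs
  refine ⟨d, fun x I hI => hd x (mx cs I) (fun t ht => ?_) (fun t ht t' ht' hne => mx_cross cs ht ht' hne)⟩
  exact ((mem_nl cs).1 ((mem_ids.1 hI).1 (mem_mx.1 ht).1)).1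

end

end Pool.Agent.H73.WM
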