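import Pool.Agent.H73.WM.Tail
import Pool.Agent.H73.WM.Dim
import Pool.Agent.H73.HVN.EA
import Pool.Agent.H73.HVN.Conv

/-!
# Project WM, module Fin: the weak-* CBAP

PLAN. As `cbap_HA` in `Pool/Agent/H73/HVN/Final.lean` and `haagerup_mixed` in `Pool/Agent/H73/HM/Final.lean` (their private lemmas
are to be copied): index `Finset W × ℕ`, maps `E_A ∘ ∏_{b ∈ A, b ∉ L} Φ_b ∘ Ψ` with `Φ_b` from `exists_trunc`
(`ρ = fr k`, `n₀ = k`, `ε` with `(1 + ε)^(|A| + 1) ≤ C`) and `Ψ` from `exists_truncL` (`r = fr k`, `n₀ = k`, the same `ε`,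
`d` from `exists_dimLe`). Multiplier `[w ∈ W_A] ∏_{b ∈ A ∖ L} [N_b(w) ≤ n_b] ρ^(4 N_b(w)) * [nu w ≤ n] ρ^(nu w)`; its support is in
`{w ∈ W_A : ∑_{b ∈ A ∖ L} N_b(w) + nu w ≤ ∑ n_b + n}`, finite by `Mix.finite_level` (`HM/Level.lean`).
`finiteDimensional_range`, `tendsto_mult`, `tendsto_weak` as in `cbap_HA`; the pointwise limit as in `cH_lim` of
`HM/Final.lean` (with exponents `4 * NN` and `nu`) and the eventual comparison at the end of `cbap_HA`.
-/

set_option autoImplicit false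

open scoped ComplexOrder InnerProductSpace
open Filter Topology

namespace Pool.Agent.H73.WM

open Pool.Agent.H73.HVN Pool.Agent.H26.HR Pool.Agent.H73.HM

universe u

variable {B : Type} [Finite B] {W : Type u} [Group W] {M : CoxeterMatrix B}
  (cs : CoxeterSystem M W) {L : Set B}

/-- the finite set of all generators in `F` -/
private noncomputable def fA (F : Finset W) : Finset B :=
  F.preimage cs.simple (simple_injective cs).injOn

omit [Finite B] in
private theorem mem_fA {F : Finset W} {b : B} : b ∈ fA cs F ↔ cs.simple b ∈ F := by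
  unfold fA
  exact Finset.mem_preimage

open Classical in
/-- the generators in `F` outside `L` -/
private noncomputable def fR (L : Set B) (F : Finset W) : Finset B := (fA cs F).filter (· ∉ L)

/-- `ρ_k` -/
private noncomputable def fr (k : ℕ) : ℝ := 1 - 1 / ((k : ℝ) + 2)

private theorem fr_pos (k : ℕ) : 0 < fr k := by
  unfold fr
  have hk : (0 : ℝ) ≤ k := Nat.cast_nonneg k
  have h2 : 1 / ((k : ℝ) + 2) < 1 := by
    rw [div_lt_one (by linarith)]
    linarith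
  linarith

private theorem fr_lt (k : ℕ) : fr k < 1 := by
  unfold fr
  have hk : (0 : ℝ) ≤ k := Nat.cast_nonneg k
  have h2 : 0 < 1 / ((k : ℝ) + 2) := by positivity
  linarith

private theorem fr_tendsto : Tendsto fr atTop (𝓝 1) := by
  have h1 : Tendsto (fun k : ℕ => ((k : ℝ) + 2)) atTop atTop :=
    tendsto_atTop_add_const_right _ _ tendsto_natCast_atTop_atTop
  have h2 : Tendsto (fun k : ℕ => 1 / ((k : ℝ) + 2)) atTop (𝓝 0) := by
    simp only [one_div]
    exact tendsto_inv_atTop_zero.comp h1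
  have h3 := (tendsto_const_nhds (x := (1 : ℝ)) (f := (atTop : Filter ℕ))).sub h2
  rw [sub_zero] at h3
  exact h3

omit [Group W] in
private theorem snd_tendsto : Tendsto (fun i : Finset W × ℕ => i.2) atTop atTop := by
  classical
  rw [← Filter.prod_atTop_atTop_eq]
  exact Filter.tendsto_snd

omit [Group W] in
/-- powers of `ρ_k` tend to `1` -/
private theorem pow_tendsto (m : ℕ) :
    Tendsto (fun i : Finset W × ℕ => ((fr i.2 ^ m : ℝ) : ℂ)) atTop (𝓝 1) := by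
  have h3 : Tendsto (fun i : Finset W × ℕ => fr i.2 ^ m) atTop (𝓝 1) := by
    have h4 := (fr_tendsto.comp (snd_tendsto (W := W))).pow m
    simpa using h4
  have h5 := (Complex.continuous_ofReal.tendsto (1 : ℝ)).comp h3
  simpa [Function.comp_def] using h5

/-- the multiplier without truncation -/
private noncomputable def cH (χ : W →* ℤˣ) (L : Set B) (i : Finset W × ℕ) (w : W) : ℂ :=
  (open Classical in if w ∈ WP cs (fA cs i.1 : Set B) then (1 : ℂ) else 0) *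
    ((∏ b ∈ fR cs L i.1, ((fr i.2 ^ (4 * NN cs b w) : ℝ) : ℂ)) *
      ((fr i.2 ^ (nu cs χ w) : ℝ) : ℂ))

private theorem cH_lim (χ : W →* ℤˣ) (L : Set B) (w : W) :
    Tendsto (fun i : Finset W × ℕ => cH cs χ L i w) atTop (𝓝 1) := by
  classical
  obtain ⟨A₀, hA₀⟩ := exists_finset_mem_WP cs w
  have h1 : Tendsto (fun i : Finset W × ℕ =>
      (∏ b ∈ A₀.filter (· ∉ L), ((fr i.2 ^ (4 * NN cs b w) : ℝ) : ℂ)) *
        ((fr i.2 ^ (nu cs χ w) : ℝ) : ℂ)) atTop (𝓝 1) := by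
    have h6 := tendsto_finsetProd (A₀.filter (· ∉ L))
      (fun b _ => pow_tendsto (W := W) (4 * NN cs b w))
    have h7 := h6.mul (pow_tendsto (W := W) (nu cs χ w))
    simpa using h7
  refine h1.congr' ?_
  filter_upwards [eventually_ge_atTop ((A₀.image cs.simple, 0) : Finset W × ℕ)] with i hi
  unfold cH
  have hsub : A₀ ⊆ fA cs i.1 := by
    intro b hb
    rw [mem_fA]
    exact hi.1 (Finset.mem_image_of_mem _ hb)
  have hw : w ∈ WP cs (fA cs i.1 : Set B) :=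
    WP_mono cs (by exact_mod_cast hsub) hA₀
  rw [if_pos hw, one_mul]
  congr 1
  refine Finset.prod_subset ?_ ?_
  · intro b hb
    rw [Finset.mem_filter] at hb
    exact Finset.mem_filter.2 ⟨hsub hb.1, hb.2⟩
  · intro b hb hb2
    have hb' : b ∉ A₀ := fun h => hb2 (Finset.mem_filter.2 ⟨h, (Finset.mem_filter.1 hb).2⟩)
    have h0 : NN cs b w = 0 :=
      NN_eq_zero_of_notMem cs (A := (A₀ : Set B)) (by exact_mod_cast hb') hA₀
    rw [h0]
    simp

/-- the multiplier of the truncated maps -/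
private noncomputable def cT (χ : W →* ℤˣ) (L : Set B) (n : B → ℕ) (N : ℕ) (i : Finset W × ℕ)
    (w : W) : ℂ :=
  (open Classical in if w ∈ WP cs (fA cs i.1 : Set B) then (1 : ℂ) else 0) *
    ((∏ b ∈ fR cs L i.1,
      (if NN cs b w ≤ n b then ((fr i.2 ^ (4 * NN cs b w) : ℝ) : ℂ) else 0)) *
      (if nu cs χ w ≤ N then ((fr i.2 ^ (nu cs χ w) : ℝ) : ℂ) else 0))

omit [Finite B] in
private theorem norm_cT (χ : W →* ℤˣ) (L : Set B) (n : B → ℕ) (N : ℕ) (i : Finset W × ℕ)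
    (w : W) : ‖cT cs χ L n N i w‖ ≤ 1 := by
  unfold cT
  rw [norm_mul, norm_mul, norm_prod]
  refine mul_le_one₀ ?_ (mul_nonneg (Finset.prod_nonneg fun b _ => norm_nonneg _) (norm_nonneg _))
    (mul_le_one₀ (Finset.prod_le_one (fun b _ => norm_nonneg _) ?_) (norm_nonneg _) ?_)
  · split_ifs <;> simp
  · intro b _
    split_ifs
    · rw [Complex.norm_real, Real.norm_of_nonneg (pow_nonneg (fr_pos _).le _)]
      exact pow_le_one₀ (fr_pos _).le (fr_lt _).le
    · simp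
  · split_ifs
    · rw [Complex.norm_real, Real.norm_of_nonneg (pow_nonneg (fr_pos _).le _)]
      exact pow_le_one₀ (fr_pos _).le (fr_lt _).le
    · simp

omit [Finite B] in
private theorem finite_cT {χ : W →* ℤˣ} (hMx : Mix cs L χ) (hFC : FCout cs L) (n : B → ℕ)
    (N : ℕ) (i : Finset W × ℕ) : {w | cT cs χ L n N i w ≠ 0}.Finite := by
  classical
  refine (hMx.finite_level cs hFC (fA cs i.1) (∑ b ∈ fR cs L i.1, n b + N)).subset ?_
  intro w hw
  have hw' : cT cs χ L n N i w ≠ 0 := hw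
  unfold cT at hw'
  have h1 := left_ne_zero_of_mul hw'
  have h2 := right_ne_zero_of_mul hw'
  have h3 := left_ne_zero_of_mul h2
  have h4 := right_ne_zero_of_mul h2
  refine ⟨?_, ?_⟩
  · by_contra hWP
    rw [if_neg hWP] at h1
    exact h1 rfl
  · have h5 : nu cs χ w ≤ N := by
      by_contra hlt
      rw [if_neg hlt] at h4
      exact h4 rfl
    have h6 : ∑ b ∈ fR cs L i.1, NN cs b w ≤ ∑ b ∈ fR cs L i.1, n b := by
      refine Finset.sum_le_sum ?_
      intro b hb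
      by_contra hlt
      apply h3
      refine Finset.prod_eq_zero hb ?_
      rw [if_neg hlt]
    refine le_trans (le_of_eq ?_) (add_le_add h6 h5)
    unfold fR
    congr!

/-- choice of `ε` -/
private theorem exists_eps {C : ℝ} (hC : 1 < C) (n : ℕ) : ∃ ε : ℝ, 0 < ε ∧ (1 + ε) ^ n ≤ C := by
  have hC0 : (0 : ℝ) ≤ C := by linarith
  have hx : (1 : ℝ) < C ^ (((n + 1 : ℕ) : ℝ)⁻¹) := by
    refine Real.one_lt_rpow hC ?_
    positivity
  refine ⟨C ^ (((n + 1 : ℕ) : ℝ)⁻¹) - 1, by linarith, ?_⟩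
  have h1 : (1 + (C ^ (((n + 1 : ℕ) : ℝ)⁻¹) - 1)) = C ^ (((n + 1 : ℕ) : ℝ)⁻¹) := by ring
  rw [h1]
  calc (C ^ (((n + 1 : ℕ) : ℝ)⁻¹)) ^ n ≤ (C ^ (((n + 1 : ℕ) : ℝ)⁻¹)) ^ (n + 1) :=
        pow_le_pow_right₀ hx.le (Nat.le_succ n)
    _ = C := Real.rpow_inv_natCast_pow hC0 (Nat.succ_ne_zero n)

private theorem exists_T {χ : W →* ℤˣ} (hMx : Mix cs L χ) {q : B → ℝ} (hq : Admissible cs q)
    (hL : ∀ i ∈ L, q i = 1) {C : ℝ} (hC : 1 < C) (i : Finset W × ℕ) :
    ∃ n : B → ℕ, (∀ b, i.2 ≤ n b) ∧ ∃ N : ℕ, i.2 ≤ N ∧ ∃ Φ : HA cs q →ₗ[ℂ] HA cs q,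
      IsNormalMap (HA cs q) Φ ∧ CBNormLE (HA cs q) Φ C ∧ IsMult cs q Φ (cT cs χ L n N i) := by
  obtain ⟨d, hd⟩ := exists_dimLe cs χ
  obtain ⟨ε, hε, hεC⟩ := exists_eps hC ((fR cs L i.1).card + 1)
  choose n hn Φ hΦn hΦc hΦm using fun b => exists_trunc cs hq b (fr_pos i.2) (fr_lt i.2) hε i.2
  obtain ⟨N, hN, Φ₃, h3n, h3c, h3m⟩ := exists_truncL cs hMx hq hL hd (fr_pos i.2) (fr_lt i.2) hε i.2
  refine ⟨n, hn, N, hN, ?_⟩
  obtain ⟨Φ₁, h1n, h1c, h1m, -⟩ := exists_prod cs (q := q) False (fR cs L i.1) (fun _ => 1 + ε)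
    (fun b w => if NN cs b w ≤ n b then ((fr i.2 ^ (4 * NN cs b w) : ℝ) : ℂ) else 0)
    (fun b _ => ⟨Φ b, hΦn b, hΦc b, hΦm b, fun h => h.elim⟩)
  obtain ⟨Φ₂, h2n, h2c, h2m, -⟩ := exists_EA cs hq (fA cs i.1 : Set B)
  refine ⟨Φ₂ ∘ₗ (Φ₁ ∘ₗ Φ₃), h2n.comp (h1n.comp h3n), (h2c.comp (h1c.comp h3c)).mono ?_,
    IsMult.comp cs h2m (IsMult.comp cs h1m h3m)⟩
  rw [one_mul, Finset.prod_const, ← pow_succ]
  exact hεC

theorem cbap_mixed {q : B → ℝ} (hq : Admissible cs q) (hL : ∀ i ∈ L, q i = 1)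
    (hlab : ∀ i, i ∉ L → ∀ j ∈ L, M i j = 2 ∨ M i j = 0) (hFC : FCout cs L) {C : ℝ}
    (hC : 1 < C) : HasWeakStarCBAP (HA cs q) C := by
  classical
  obtain ⟨χ, hMx⟩ := exists_mix cs hlab
  choose n hn N hN Φ hΦn hΦc hΦm using exists_T cs hMx hq hL hC
  refine ⟨Finset W × ℕ, inferInstance, inferInstance, inferInstance, Φ, ?_, ?_⟩
  · intro i
    exact ⟨hΦn i, finiteDimensional_range cs hq (hΦm i) (finite_cT cs hMx hFC (n i) (N i) i),
      hΦc i⟩
  · intro x φ hφ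
    refine tendsto_weak cs hq hΦc x ?_ φ hφ
    refine tendsto_mult cs hΦm (fun i => norm_cT cs χ L (n i) (N i) i) ?_ x
    intro w
    obtain ⟨A₀, hA₀⟩ := exists_finset_mem_WP cs w
    refine (cH_lim cs χ L w).congr' ?_
    filter_upwards [(snd_tendsto (W := W)).eventually
      (eventually_ge_atTop (∑ b ∈ A₀, NN cs b w + nu cs χ w))] with i hi
    unfold cT cH
    congr 1
    have hnu : nu cs χ w ≤ N i := (Nat.le_add_left _ _).trans (hi.trans (hN i))
    rw [if_pos hnu]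
    congr 1
    refine Finset.prod_congr rfl ?_
    intro b _
    rw [if_pos]
    by_cases hb : b ∈ A₀
    · exact (Finset.single_le_sum (f := fun b => NN cs b w) (fun _ _ => Nat.zero_le _) hb).trans
        ((Nat.le_add_right _ _).trans (hi.trans (hn i b)))
    · rw [NN_eq_zero_of_notMem cs (A := (A₀ : Set B)) (by exact_mod_cast hb) hA₀]
      exact Nat.zero_le _

end Pool.Agent.H73.WM
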