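import Pool.Agent.H73.WM.Reg

/-!
# Project WM, module Gen: the regrouped kernel

PLAN. Let `P = nl z⁻¹ ∩ nl y⁻¹`, `n = |nl z⁻¹|`, `m = |nl y⁻¹|`. `FF_eq`: `sum_regroup` (`isId_inter`) with
`κ = (1 - r²) / r²` in `ℂ` and `f A = X (z * gc A) (y * gc A)` (`gc_dn`); `1 + κ = 1 / r²`, so
`r^(n+m) κ^μ (1+κ)^(|I| - μ) = (1 - r²)^μ r^(n + m - 2 |I|)` as `μ ≤ |I| ≤ n, m` (`card_mx_le`; prove it for reals first).

`Fg_one`: `nl 1 = ∅` (`nl_one`), `ids ∅ = {∅}`, `mx ∅ = ∅`, `Dg g 0 p = g p`, the gate of `∅` is in `W_L`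
(as in `Mix.FF_one`, `HM/Map.lean`).
-/

set_option autoImplicit false

namespace Pool.Agent.H73.WM

open Pool.Agent.H73.HVN Pool.Agent.H26.HR Pool.Agent.H73.HM

universe u v

variable {B : Type v} {W : Type u} [Group W] {M : CoxeterMatrix B} (cs : CoxeterSystem M W)
variable {L : Set B} {χ : W →* ℤˣ}

theorem card_mx_le (I : Finset W) : (mx cs I).card ≤ I.card := by
  classical
  unfold mx
  exact Finset.card_filter_le _ _

/-- the numerical identity -/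
private theorem Gen_num {r : ℝ} (hr : 0 < r) {n m i μ : ℕ} (h1 : μ ≤ i) (h2 : i ≤ n) (h3 : i ≤ m) :
    r ^ (n + m) * (((1 - r ^ 2) / r ^ 2) ^ μ * (1 + (1 - r ^ 2) / r ^ 2) ^ (i - μ)) =
      (1 - r ^ 2) ^ μ * r ^ (n + m - 2 * i) := by
  have hr0 : r ≠ 0 := hr.ne'
  obtain ⟨j, rfl⟩ := Nat.exists_eq_add_of_le h1
  obtain ⟨k, hk⟩ := Nat.exists_eq_add_of_le (show 2 * (μ + j) ≤ n + m by omega)
  have e1 : 1 + (1 - r ^ 2) / r ^ 2 = 1 / r ^ 2 := by
    field_simp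
    ring
  have e2 : n + m - 2 * (μ + j) = k := by omega
  rw [e1, e2, hk, Nat.add_sub_cancel_left]
  have h4 : (r ^ 2) ^ μ ≠ 0 := pow_ne_zero _ (pow_ne_zero _ hr0)
  have h5 : (r ^ 2) ^ j ≠ 0 := pow_ne_zero _ (pow_ne_zero _ hr0)
  rw [div_pow, div_pow, one_pow, pow_add, pow_mul, pow_add]
  field_simp

open Classical in
theorem FF_eq (hM : Mix cs L χ) {r : ℝ} (hr : 0 < r) {X : W → W → ℂ} (hX : RInv cs L X)
    (z y : W) : FF' cs χ r X z y = ∑ I ∈ ids cs χ (nl cs χ z⁻¹ ∩ nl cs χ y⁻¹),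
      (((1 - r ^ 2) ^ (mx cs I).card *
        r ^ ((nl cs χ z⁻¹).card + (nl cs χ y⁻¹).card - 2 * I.card) : ℝ) : ℂ) *
        X (z * gc cs χ I) (y * gc cs χ I) := by
  have hP : nl cs χ z⁻¹ ∩ nl cs χ y⁻¹ ⊆ nl cs χ z⁻¹ := Finset.inter_subset_left
  have hreg := sum_regroup cs (R := ℂ) hP (isId_inter cs z⁻¹ y⁻¹)
    ((((1 - r ^ 2) / r ^ 2 : ℝ)) : ℂ) (fun A => X (z * gc cs χ A) (y * gc cs χ A))
    (fun A hA => gc_dn cs hM hP hA hX z y)
  have e0 : FF' cs χ r X z y = ((r ^ ((nl cs χ z⁻¹).card + (nl cs χ y⁻¹).card) : ℝ) : ℂ) *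
      ∑ A ∈ (nl cs χ z⁻¹ ∩ nl cs χ y⁻¹).powerset,
        ((((1 - r ^ 2) / r ^ 2 : ℝ)) : ℂ) ^ A.card * X (z * gc cs χ A) (y * gc cs χ A) := by
    unfold FF'
    congr 1
    refine Finset.sum_congr ?_ fun A _ => ?_
    · congr!
    · push_cast
      rfl
  rw [e0, hreg, Finset.mul_sum]
  refine Finset.sum_congr rfl fun I hI => ?_
  have hI1 : I ⊆ nl cs χ z⁻¹ ∩ nl cs χ y⁻¹ := (mem_ids.1 hI).1
  have c1 : I.card ≤ (nl cs χ z⁻¹).card :=
    Finset.card_le_card (hI1.trans Finset.inter_subset_left)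
  have c2 : I.card ≤ (nl cs χ y⁻¹).card :=
    Finset.card_le_card (hI1.trans Finset.inter_subset_right)
  have hnum := Gen_num hr (card_mx_le cs I) c1 c2
  rw [← hnum]
  push_cast
  ring

theorem Fg_one (hM : Mix cs L χ) (g : ℕ → ℝ) {X : W → W → ℂ} (hX : RInv cs L X) (z : W) :
    Fg cs χ g X z 1 = ((g (nl cs χ z⁻¹).card : ℝ) : ℂ) * X z 1 := by
  classical
  have e1 : ids cs χ (∅ : Finset W) = {∅} := by
    ext I
    rw [mem_ids, Finset.mem_singleton, Finset.subset_empty]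
    constructor
    · exact fun h => h.1
    · rintro rfl
      exact ⟨rfl, fun t ht => absurd ht (Finset.notMem_empty t)⟩
  have e2 : mx cs (∅ : Finset W) = ∅ := by
    ext t
    rw [mem_mx]
    constructor
    · exact fun h => h.1
    · exact fun h => absurd h (Finset.notMem_empty t)
  have h1 : gc cs χ (∅ : Finset W) ∈ WP cs L :=
    hM.gate_empty cs (hM.gate_gc cs (x := 1) (Finset.empty_subset _))
  have h2 := hX _ h1 z 1
  unfold Fg
  rw [inv_one, nl_one, Finset.inter_empty, e1, Finset.sum_singleton, e2, h2]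
  congr 2
  unfold Dg
  simp

end Pool.Agent.H73.WM
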