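import Pool.Agent.H73.WM.Gen

/-!
# Project WM, module GenC: the kernel maps for all functions `g` preserve the commutation conditions

PLAN. Let `P = nl z⁻¹ ∩ nl y⁻¹`, `n = |nl z⁻¹|`, `m = |nl y⁻¹|`, and
`KP X z y : Polynomial ℂ := ∑ I ∈ ids P, C (X (z gc I) (y gc I)) * ((1 - X ^ 2) ^ μ * X ^ (n + m - 2 |I|))`, so
`eval (r : ℂ) (KP X z y) = FF' cs χ r X z y` for `r > 0` (`FF_eq`, `rinv_of_CC`). By `Mix.FF_CC` the polynomial
`KP z (y s) + C (pr y) * KP z y - KP (z s) y - C (pr z) * KP z y` vanishes at all `r > 0`, so it is `0`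
(`Polynomial.eq_zero_of_infinite_isRoot`). Let `ev : Polynomial ℂ →ₗ[ℂ] ℂ` be the linear map with `X ^ k ↦ g k` (e.g.
`Polynomial.lsum`, or `p ↦ p.sum fun k a => a * g k`). `ev (C c * p) = c * ev p` and
`ev ((1 - X^2)^μ * X^p) = Dg g μ p` (binomial theorem, `add_pow` / `sub_pow`), so `ev (KP X z y) = Fg g X z y`.
-/

set_option autoImplicit false

namespace Pool.Agent.H73.WM

open Pool.Agent.H73.HVN Pool.Agent.H26.HR Pool.Agent.H73.HM

universe u v

variable {B : Type v} {W : Type u} [Group W] {M : CoxeterMatrix B} (cs : CoxeterSystem M W)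
variable {L : Set B} {χ : W →* ℤˣ}

open Classical in
/-- the kernel as a polynomial in `r` -/
private noncomputable def KP (χ : W →* ℤˣ) (K : W → W → ℂ) (z y : W) : Polynomial ℂ :=
  ∑ I ∈ ids cs χ (nl cs χ z⁻¹ ∩ nl cs χ y⁻¹),
    Polynomial.C (K (z * gc cs χ I) (y * gc cs χ I)) *
      ((1 - Polynomial.X ^ 2) ^ (mx cs I).card *
        Polynomial.X ^ ((nl cs χ z⁻¹).card + (nl cs χ y⁻¹).card - 2 * I.card))

/-- the linear map with `X ^ k ↦ g k` -/
private noncomputable def gev (g : ℕ → ℝ) : Polynomial ℂ →ₗ[ℂ] ℂ :=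
  Polynomial.lsum fun k => LinearMap.lsmul ℂ ℂ ((g k : ℝ) : ℂ)

private theorem gev_monomial (g : ℕ → ℝ) (k : ℕ) (a : ℂ) :
    gev g (Polynomial.monomial k a) = (g k : ℂ) * a := by
  unfold gev
  rw [Polynomial.lsum_apply, Polynomial.sum_monomial_index]
  · simp
  · simp

private theorem gev_C_mul (g : ℕ → ℝ) (c : ℂ) (p : Polynomial ℂ) :
    gev g (Polynomial.C c * p) = c * gev g p := by
  rw [← Polynomial.smul_eq_C_mul, map_smul, smul_eq_mul]

private theorem gev_pow (g : ℕ → ℝ) (m p : ℕ) :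
    gev g ((1 - Polynomial.X ^ 2) ^ m * Polynomial.X ^ p) = ((Dg g m p : ℝ) : ℂ) := by
  have h1 : (1 - Polynomial.X ^ 2 : Polynomial ℂ) = -Polynomial.X ^ 2 + 1 := by ring
  rw [h1, add_pow, Finset.sum_mul, map_sum]
  unfold Dg
  push_cast
  refine Finset.sum_congr rfl fun j _ => ?_
  have h2 : (-Polynomial.X ^ 2 : Polynomial ℂ) ^ j * 1 ^ (m - j) * (m.choose j : Polynomial ℂ) *
      Polynomial.X ^ p = Polynomial.monomial (p + 2 * j) ((-1) ^ j * (m.choose j : ℂ)) := by
    rw [← Polynomial.C_mul_X_pow_eq_monomial, one_pow, mul_one, neg_pow, map_mul, map_pow, map_neg,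
      map_one, map_natCast, ← pow_mul]
    ring
  rw [h2, gev_monomial]
  ring

private theorem gev_KP (g : ℕ → ℝ) (χ : W →* ℤˣ) (K : W → W → ℂ) (z y : W) :
    gev g (KP cs χ K z y) = Fg cs χ g K z y := by
  classical
  unfold KP Fg
  rw [map_sum]
  refine Finset.sum_congr rfl fun I _ => ?_
  rw [gev_C_mul, gev_pow, mul_comm]

private theorem eval_KP (hM : Mix cs L χ) {r : ℝ} (hr : 0 < r) {K : W → W → ℂ}
    (hK : RInv cs L K) (z y : W) :
    Polynomial.eval (r : ℂ) (KP cs χ K z y) = FF' cs χ r K z y := by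
  classical
  rw [FF_eq cs hM hr hK]
  unfold KP
  rw [Polynomial.eval_finsetSum]
  refine Finset.sum_congr rfl fun I _ => ?_
  rw [Polynomial.eval_mul, Polynomial.eval_mul, Polynomial.eval_C, Polynomial.eval_pow,
    Polynomial.eval_pow, Polynomial.eval_sub, Polynomial.eval_pow, Polynomial.eval_one,
    Polynomial.eval_X, mul_comm]
  push_cast
  rfl

/-- (2) -/
theorem Fg_CC (hM : Mix cs L χ) {q : B → ℝ} (hq : Admissible cs q) (hL : ∀ i ∈ L, q i = 1)
    (g : ℕ → ℝ) {X : W → W → ℂ} (hCC : ∀ i, CC cs q X i) (i : B) :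
    CC cs q (Fg cs χ g X) i := by
  intro z y
  have hX := rinv_of_CC cs hL hCC
  have h0 : KP cs χ X z (y * cs.simple i) + Polynomial.C (pr cs q i y) * KP cs χ X z y -
      (KP cs χ X (z * cs.simple i) y + Polynomial.C (pr cs q i z) * KP cs χ X z y) = 0 := by
    apply Polynomial.eq_zero_of_infinite_isRoot
    refine Set.infinite_of_injective_forall_mem (f := fun n : ℕ => (((n : ℝ) + 1 : ℝ) : ℂ)) ?_ ?_
    · intro a b hab
      have h1 : ((a : ℝ) + 1 : ℝ) = (b : ℝ) + 1 := Complex.ofReal_injective hab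
      exact_mod_cast add_right_cancel h1
    · intro n
      have hr : (0 : ℝ) < (n : ℝ) + 1 := by positivity
      have h1 := hM.FF_CC cs hq hL hr hCC i z y
      rw [Set.mem_ofPred_eq, Polynomial.IsRoot.def, Polynomial.eval_sub, Polynomial.eval_add,
        Polynomial.eval_add, Polynomial.eval_mul, Polynomial.eval_mul, Polynomial.eval_C,
        Polynomial.eval_C, eval_KP cs hM hr hX, eval_KP cs hM hr hX, eval_KP cs hM hr hX, h1,
        sub_self]
  have h1 := congrArg (gev g) h0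
  rw [map_sub, map_add, map_add, map_zero, gev_C_mul, gev_C_mul, gev_KP, gev_KP, gev_KP,
    sub_eq_zero] at h1
  exact h1

end Pool.Agent.H73.WM
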