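import Pool.Agent.H73.WM.GenC
import Pool.Agent.H73.WM.Cnt

/-!
# Project WM, module Krs: the maps for the functions `g`

PLAN. `exists_map_of_kernel` (`Pool/Agent/H73/HVN/Kern.lean`) with `ι = Finset W × ℕ × ℕ`, `a (I, a, b) = (gc cs χ I)⁻¹`, and,
for `i = (I, a, b)`, `h = Dg g |mx I| (a + b)`:
`k i w = if I ∈ ids (nl y⁻¹) ∧ I.card + b = |nl y⁻¹| then √|h| else 0` with `y = w * gc I`,
`k' i w = if I ∈ ids (nl z⁻¹) ∧ I.card + a = |nl z⁻¹| then SignType.sign h * √|h| else 0` with `z = w * gc I` (or any other way to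
put the sign on one side). `kmap k k' a X = Fg cs χ g X`: the `tsum` has support in the image of
`ids (nl z⁻¹ ∩ nl y⁻¹)` (an ideal contained in both sets) under `I ↦ (I, |nl z⁻¹| - |I|, |nl y⁻¹| - |I|)`.

Row sums (for `k`; `k'` is the same with the roles of `a`, `b` exchanged): with `P = nl y⁻¹`, `b_I = |P| - |I|`,
`∑_(I,a,b) k² = ∑_{I ∈ ids P} ∑_a |Dg g |mx I| (a + b_I)| ≤ ∑_{I ∈ ids P} ∑_a G (a + b_I)
 = ∑_{I ∈ ids P} ∑_p [b_I ≤ p] G p = ∑_p #{I : b_I ≤ p} G p ≤ ∑_p 4 (p+1)^d G p = K` (`card_ids_le`).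
(`G p ≥ 0` follows from `hG 0`. Summability of `G`: `G p ≤ 4 (p+1)^d G p`. It may help to prove the row bound for all finite
subsets of `ι` first: `summable_of_sum_le`, `Real.tsum_le_of_sum_le`.) `K ≥ 0`: `HasSum.nonneg`.
`c w = g (nu cs χ w)` (`nu` is defined in `HM/Level.lean`): `Fg_CC`, `Fg_one`, `rinv_of_CC`.
Compare the end of `Pool/Agent/H73/HM/Map.lean` (`kk_kmap`, `Mix.exists_psi`).
-/

set_option autoImplicit false

open scoped ComplexOrder InnerProductSpace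
open Filter Topology

namespace Pool.Agent.H73.WM

open Pool.Agent.H73.HVN Pool.Agent.H26.HR Pool.Agent.H73.HM

universe u v

variable {B : Type v} {W : Type u} [Group W] {M : CoxeterMatrix B} (cs : CoxeterSystem M W)
variable {L : Set B} {χ : W →* ℤˣ}

/-- the weights on the right -/
private noncomputable def kb (χ : W →* ℤˣ) (g : ℕ → ℝ) (i : Finset W × ℕ × ℕ) (y : W) : ℝ :=
  open Classical in
  if i.1 ∈ ids cs χ (nl cs χ y⁻¹) ∧ i.1.card + i.2.2 = (nl cs χ y⁻¹).card then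
    √|Dg g (mx cs i.1).card (i.2.1 + i.2.2)| else 0

/-- the weights on the left -/
private noncomputable def ka (χ : W →* ℤˣ) (g : ℕ → ℝ) (i : Finset W × ℕ × ℕ) (z : W) : ℝ :=
  open Classical in
  if i.1 ∈ ids cs χ (nl cs χ z⁻¹) ∧ i.1.card + i.2.1 = (nl cs χ z⁻¹).card then
    (SignType.sign (Dg g (mx cs i.1).card (i.2.1 + i.2.2)) : ℝ) *
      √|Dg g (mx cs i.1).card (i.2.1 + i.2.2)| else 0

private noncomputable def tr (χ : W →* ℤˣ) (i : Finset W × ℕ × ℕ) : W := (gc cs χ i.1)⁻¹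

private theorem kb_sq (g : ℕ → ℝ) (i : Finset W × ℕ × ℕ) (y : W) : (kb cs χ g i y) ^ 2 =
    (open Classical in
    if i.1 ∈ ids cs χ (nl cs χ y⁻¹) ∧ i.1.card + i.2.2 = (nl cs χ y⁻¹).card then
      |Dg g (mx cs i.1).card (i.2.1 + i.2.2)| else 0) := by
  unfold kb
  split_ifs
  · rw [Real.sq_sqrt (abs_nonneg _)]
  · simp

private theorem ka_sq (g : ℕ → ℝ) (i : Finset W × ℕ × ℕ) (y : W) : (ka cs χ g i y) ^ 2 =
    (kb cs χ g (i.1, i.2.2, i.2.1) y) ^ 2 := by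
  rw [kb_sq]
  unfold ka
  dsimp only
  rw [add_comm i.2.2 i.2.1]
  split_ifs with h
  · rw [mul_pow, Real.sq_sqrt (abs_nonneg _)]
    rcases lt_trichotomy (Dg g (mx cs i.1).card (i.2.1 + i.2.2)) 0 with h1 | h1 | h1
    · rw [sign_neg h1]
      simp
    · rw [h1]
      simp
    · rw [sign_pos h1]
      simp
  · simp

/-- finite row sums -/
private theorem kb_fin {d : ℕ} (hd : DimLe cs χ d) {g : ℕ → ℝ} {G : ℕ → ℝ}
    (hG : ∀ m ≤ d, ∀ p, |Dg g m p| ≤ G p) {K : ℝ}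
    (hs : HasSum (fun p : ℕ => 4 * ((p : ℝ) + 1) ^ d * G p) K) (y : W)
    (s : Finset (Finset W × ℕ × ℕ)) : ∑ i ∈ s, (kb cs χ g i y) ^ 2 ≤ K := by
  classical
  set P := nl cs χ y⁻¹ with hP
  have hG0 : ∀ p, 0 ≤ G p := fun p => (abs_nonneg _).trans (hG 0 (Nat.zero_le _) p)
  set s' := s.filter (fun i => i.1 ∈ ids cs χ P ∧ i.1.card + i.2.2 = P.card) with hs'
  set N := s.sup (fun i => i.2.1 + i.2.2) + 1 with hN
  set T := ((ids cs χ P) ×ˢ (Finset.range N)).filter (fun j => P.card ≤ j.1.card + j.2) with hT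
  have e1 : ∑ i ∈ s, (kb cs χ g i y) ^ 2 = ∑ i ∈ s', |Dg g (mx cs i.1).card (i.2.1 + i.2.2)| := by
    rw [hs', Finset.sum_filter]
    refine Finset.sum_congr rfl fun i _ => ?_
    rw [kb_sq]
  have e2 : ∑ i ∈ s', |Dg g (mx cs i.1).card (i.2.1 + i.2.2)| ≤ ∑ i ∈ s', G (i.2.1 + i.2.2) := by
    refine Finset.sum_le_sum fun i hi => ?_
    have h1 := (Finset.mem_filter.1 hi).2
    exact hG _ (hd _ _ h1.1) _
  have hinj : Set.InjOn (fun i : Finset W × ℕ × ℕ => (i.1, i.2.1 + i.2.2)) (s' : Set _) := by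
    intro i hi j hj hij
    have h1 := (Finset.mem_filter.1 (Finset.mem_coe.1 hi)).2
    have h2 := (Finset.mem_filter.1 (Finset.mem_coe.1 hj)).2
    simp only [Prod.mk.injEq] at hij
    obtain ⟨h3, h4⟩ := hij
    have h5 : i.2.2 = j.2.2 := by
      have := h1.2
      rw [h3] at this
      omega
    exact Prod.ext h3 (Prod.ext (by omega) h5)
  have e3 : ∑ i ∈ s', G (i.2.1 + i.2.2) =
      ∑ j ∈ s'.image (fun i : Finset W × ℕ × ℕ => (i.1, i.2.1 + i.2.2)), G j.2 := by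
    rw [Finset.sum_image hinj]
  have hsub : s'.image (fun i : Finset W × ℕ × ℕ => (i.1, i.2.1 + i.2.2)) ⊆ T := by
    intro j hj
    rw [Finset.mem_image] at hj
    obtain ⟨i, hi, rfl⟩ := hj
    obtain ⟨hi1, hi2, hi3⟩ := Finset.mem_filter.1 hi
    rw [hT, Finset.mem_filter, Finset.mem_product, Finset.mem_range]
    have h5 : i.2.1 + i.2.2 ≤ s.sup (fun i => i.2.1 + i.2.2) :=
      Finset.le_sup (f := fun i : Finset W × ℕ × ℕ => i.2.1 + i.2.2) hi1
    refine ⟨⟨hi2, by dsimp only; omega⟩, by dsimp only; omega⟩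
  have e4 : ∑ j ∈ s'.image (fun i : Finset W × ℕ × ℕ => (i.1, i.2.1 + i.2.2)), G j.2 ≤
      ∑ j ∈ T, G j.2 :=
    Finset.sum_le_sum_of_subset_of_nonneg hsub fun j _ _ => hG0 _
  have e5 : ∑ j ∈ T, G j.2 = ∑ p ∈ Finset.range N,
      (((ids cs χ P).filter (fun I => P.card ≤ I.card + p)).card : ℝ) * G p := by
    rw [hT, Finset.sum_filter, Finset.sum_product_right]
    refine Finset.sum_congr rfl fun p _ => ?_
    rw [← Finset.sum_filter]
    dsimp only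
    rw [Finset.sum_const, nsmul_eq_mul]
  have e6 : ∑ p ∈ Finset.range N,
      (((ids cs χ P).filter (fun I => P.card ≤ I.card + p)).card : ℝ) * G p ≤
      ∑ p ∈ Finset.range N, 4 * ((p : ℝ) + 1) ^ d * G p := by
    refine Finset.sum_le_sum fun p _ => mul_le_mul_of_nonneg_right ?_ (hG0 p)
    exact card_ids_le cs (x := y⁻¹) subset_rfl (isId_nl cs y⁻¹) (hd y⁻¹) p
  have e7 : ∑ p ∈ Finset.range N, 4 * ((p : ℝ) + 1) ^ d * G p ≤ K :=
    sum_le_hasSum _ (fun p _ => mul_nonneg (by positivity) (hG0 p)) hs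
  rw [e1]
  exact e2.trans (e3.le.trans (e4.trans (e5.le.trans (e6.trans e7))))

private theorem kb_row {d : ℕ} (hd : DimLe cs χ d) {g : ℕ → ℝ} {G : ℕ → ℝ}
    (hG : ∀ m ≤ d, ∀ p, |Dg g m p| ≤ G p) {K : ℝ}
    (hs : HasSum (fun p : ℕ => 4 * ((p : ℝ) + 1) ^ d * G p) K) (y : W) :
    Summable (fun i => (kb cs χ g i y) ^ 2) ∧ ∑' i, (kb cs χ g i y) ^ 2 ≤ K := by
  have h1 : ∀ s : Finset (Finset W × ℕ × ℕ), ∑ i ∈ s, (kb cs χ g i y) ^ 2 ≤ K :=
    kb_fin cs hd hG hs y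
  exact ⟨summable_of_sum_le (fun i => sq_nonneg _) h1,
    Real.tsum_le_of_sum_le (fun i => sq_nonneg _) h1⟩

/-- exchange of the two numbers -/
private def sw : (Finset W × ℕ × ℕ) ≃ (Finset W × ℕ × ℕ) where
  toFun i := (i.1, i.2.2, i.2.1)
  invFun i := (i.1, i.2.2, i.2.1)
  left_inv _ := rfl
  right_inv _ := rfl

private theorem ka_row {d : ℕ} (hd : DimLe cs χ d) {g : ℕ → ℝ} {G : ℕ → ℝ}
    (hG : ∀ m ≤ d, ∀ p, |Dg g m p| ≤ G p) {K : ℝ}
    (hs : HasSum (fun p : ℕ => 4 * ((p : ℝ) + 1) ^ d * G p) K) (y : W) :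
    Summable (fun i => (ka cs χ g i y) ^ 2) ∧ ∑' i, (ka cs χ g i y) ^ 2 ≤ K := by
  have h1 := kb_row cs hd hG hs y
  have e : (fun i => (ka cs χ g i y) ^ 2) = (fun i => (kb cs χ g i y) ^ 2) ∘ (sw (W := W)) := by
    funext i
    rw [ka_sq]
    rfl
  rw [e]
  refine ⟨(Equiv.summable_iff sw).2 h1.1, ?_⟩
  have h2 := (sw (W := W)).tsum_eq (fun i => (kb cs χ g i y) ^ 2)
  show ∑' i, (kb cs χ g (sw i) y) ^ 2 ≤ K
  rw [h2]
  exact h1.2

private theorem Krs_kmap (g : ℕ → ℝ) (X : W → W → ℂ) :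
    kmap (fun i w => kb cs χ g i (w * tr cs χ i)) (fun i w => ka cs χ g i (w * tr cs χ i))
      (tr cs χ) X = Fg cs χ g X := by
  classical
  funext z y
  unfold kmap Fg
  set P := nl cs χ z⁻¹ with hP
  set Q := nl cs χ y⁻¹ with hQ
  rw [tsum_eq_sum (s := (ids cs χ (P ∩ Q)).image
    (fun I => ((I, P.card - I.card, Q.card - I.card) : Finset W × ℕ × ℕ)))]
  · rw [Finset.sum_image (fun I _ J _ h => (Prod.ext_iff.1 h).1)]
    refine Finset.sum_congr rfl fun I hI => ?_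
    rw [mem_ids, Finset.subset_inter_iff] at hI
    obtain ⟨⟨hIP, hIQ⟩, hI2⟩ := hI
    have c1 := Finset.card_le_card hIP
    have c2 := Finset.card_le_card hIQ
    simp only [inv_mul_cancel_right]
    unfold ka kb
    dsimp only
    rw [if_pos ⟨mem_ids.2 ⟨hIP, hI2⟩, by rw [← hP]; omega⟩,
      if_pos ⟨mem_ids.2 ⟨hIQ, hI2⟩, by rw [← hQ]; omega⟩]
    have e1 : P.card - I.card + (Q.card - I.card) = P.card + Q.card - 2 * I.card := by omega
    rw [e1]
    set h := Dg g (mx cs I).card (P.card + Q.card - 2 * I.card) with hh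
    have e2 : (SignType.sign h : ℝ) * √|h| * √|h| = h := by
      rw [mul_assoc, Real.mul_self_sqrt (abs_nonneg _), sign_mul_abs]
    rw [e2]
    unfold tr
    rw [inv_inv]
  · intro i hi
    simp only [inv_mul_cancel_right]
    unfold ka kb
    by_cases h1 : i.1 ∈ ids cs χ (nl cs χ z⁻¹) ∧ i.1.card + i.2.1 = (nl cs χ z⁻¹).card
    · by_cases h2 : i.1 ∈ ids cs χ (nl cs χ y⁻¹) ∧ i.1.card + i.2.2 = (nl cs χ y⁻¹).card
      · exfalso
        apply hi
        rw [← hP] at h1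
        rw [← hQ] at h2
        have h3 := mem_ids.1 h1.1
        have h4 := mem_ids.1 h2.1
        refine Finset.mem_image.2 ⟨i.1, mem_ids.2 ⟨Finset.subset_inter h3.1 h4.1, h3.2⟩, ?_⟩
        refine Prod.ext rfl (Prod.ext ?_ ?_)
        · show P.card - i.1.card = i.2.1
          omega
        · show Q.card - i.1.card = i.2.2
          omega
      · rw [if_neg h2]
        simp
    · rw [if_neg h1]
      simp

/-- (5) -/
theorem exists_Fg (hM : Mix cs L χ) {q : B → ℝ} (hq : Admissible cs q)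
    (hL : ∀ i ∈ L, q i = 1) {d : ℕ} (hd : DimLe cs χ d) (g : ℕ → ℝ) {G : ℕ → ℝ}
    (hG : ∀ m ≤ d, ∀ p, |Dg g m p| ≤ G p) {K : ℝ}
    (hs : HasSum (fun p : ℕ => 4 * ((p : ℝ) + 1) ^ d * G p) K) :
    ∃ Φ : HA cs q →ₗ[ℂ] HA cs q, IsNormalMap (HA cs q) Φ ∧ CBNormLE (HA cs q) Φ K ∧
      IsMult cs q Φ (fun w => ((g (nu cs χ w) : ℝ) : ℂ)) := by
  have hG0 : ∀ p, 0 ≤ G p := fun p => (abs_nonneg _).trans (hG 0 (Nat.zero_le _) p)
  have hK : 0 ≤ K := hs.nonneg fun p => mul_nonneg (by positivity) (hG0 p)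
  obtain ⟨Φ, a1, a2, a3, -⟩ := exists_map_of_kernel cs hq
    (fun (i : Finset W × ℕ × ℕ) w => kb cs χ g i (w * tr cs χ i))
    (fun i w => ka cs χ g i (w * tr cs χ i)) (tr cs χ) hK
    (fun y => by
      simp only [inv_mul_cancel_right]
      exact kb_row cs hd hG hs y)
    (fun y => by
      simp only [inv_mul_cancel_right]
      exact ka_row cs hd hG hs y)
    (fun w => ((g (nu cs χ w) : ℝ) : ℂ))
    (fun X hX i => by rw [Krs_kmap cs g]; exact Fg_CC cs hM hq hL g hX i)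
    (fun X hX z => by rw [Krs_kmap cs g]; exact Fg_one cs hM g (rinv_of_CC cs hL hX) z)
  exact ⟨Φ, a1, a2, a3⟩

end Pool.Agent.H73.WM
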