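import Pool.Agent.H73.WM.Ord

/-!
# Project WM, module Reg: the regrouping of the sum over subsets

PLAN. `sum_regroup`: `Finset.sum_fiberwise_of_maps_to` with the map `dn P : P.powerset → ids P` (`dn_mem`; all elements of `P`
satisfy `χ t = 1` by `hPx`, `mem_nl`); for `I ∈ ids P` and `A ⊆ P`: `dn P A = I` iff `mx I ⊆ A ⊆ I` (`→`: `A ⊆ dn P A`; a maximal
`t ∈ I` is below some `t' ∈ A ⊆ I`, so `t' = t`; `←`: `exists_mx`; `I` is an ideal). Then `A = mx I ∪ A'` with
`A' ⊆ I ∖ mx I` and `∑_{A'} κ^|A'| = (1 + κ)^|I ∖ mx I|` (`Finset.sum_pow_mul_eq_add_pow` with one number `1`, see the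
private lemma `kk_sum` of `HM/Map.lean`).
-/

set_option autoImplicit false

namespace Pool.Agent.H73.WM

open Pool.Agent.H73.HVN Pool.Agent.H26.HR Pool.Agent.H73.HM

universe u v w

variable {B : Type v} {W : Type u} [Group W] {M : CoxeterMatrix B} (cs : CoxeterSystem M W)
variable {χ : W →* ℤˣ}

private theorem reg_dn_iff {P : Finset W} {x : W} (hPx : P ⊆ nl cs χ x)
    {I : Finset W} (hI : I ∈ ids cs χ P) {A : Finset W} (hA : A ⊆ P) :
    dn cs P A = I ↔ mx cs I ⊆ A ∧ A ⊆ I := by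
  have hχ : ∀ t ∈ P, χ t = 1 := fun t ht => ((mem_nl cs).1 (hPx ht)).2
  obtain ⟨hIP, hId⟩ := mem_ids.1 hI
  constructor
  · intro h
    have hAI : A ⊆ I := by
      intro t ht
      rw [← h]
      exact mem_dn.2 ⟨hA ht, t, ht, wle_refl cs t⟩
    refine ⟨fun t ht => ?_, hAI⟩
    obtain ⟨htI, htm⟩ := mem_mx.1 ht
    rw [← h] at htI
    obtain ⟨-, t', ht', hle⟩ := mem_dn.1 htI
    rw [← htm t' (hAI ht') hle]
    exact ht'
  · rintro ⟨h1, h2⟩
    ext t
    constructor
    · intro ht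
      obtain ⟨htP, t', ht', hle⟩ := mem_dn.1 ht
      exact hId t' (h2 ht') t (hχ t htP) hle
    · intro ht
      obtain ⟨t', ht', hle⟩ := exists_mx cs (hIP.trans hPx) ht
      exact mem_dn.2 ⟨hIP ht, t', h1 ht', hle⟩

/-- (1) -/
theorem sum_regroup {R : Type w} [CommRing R] {P : Finset W} {x : W} (hPx : P ⊆ nl cs χ x)
    (hP : IsId cs χ P) (κ : R) (f : Finset W → R) (hf : ∀ A ⊆ P, f (dn cs P A) = f A) :
    ∑ A ∈ P.powerset, κ ^ A.card * f A =
      ∑ I ∈ ids cs χ P, κ ^ (mx cs I).card * (1 + κ) ^ (I.card - (mx cs I).card) * f I := by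
  classical
  have hχ : ∀ t ∈ P, χ t = 1 := fun t ht => ((mem_nl cs).1 (hPx ht)).2
  have hmap : ∀ A ∈ P.powerset, dn cs P A ∈ ids cs χ P := fun A hA =>
    dn_mem cs hP hχ (Finset.mem_powerset.1 hA)
  rw [← Finset.sum_fiberwise_of_maps_to hmap]
  refine Finset.sum_congr rfl fun I hI => ?_
  have hIP : I ⊆ P := (mem_ids.1 hI).1
  have hmI : mx cs I ⊆ I := fun t ht => (mem_mx.1 ht).1
  have hset : P.powerset.filter (fun A => dn cs P A = I) =
      (I \ mx cs I).powerset.image (fun A' => mx cs I ∪ A') := by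
    ext A
    rw [Finset.mem_filter, Finset.mem_powerset, Finset.mem_image]
    constructor
    · rintro ⟨hA, h⟩
      obtain ⟨h1, h2⟩ := (reg_dn_iff cs hPx hI hA).1 h
      refine ⟨A \ mx cs I, Finset.mem_powerset.2 (Finset.sdiff_subset_sdiff h2 le_rfl), ?_⟩
      exact Finset.union_sdiff_of_subset h1
    · rintro ⟨A', hA', rfl⟩
      have hA'I : A' ⊆ I := (Finset.mem_powerset.1 hA').trans Finset.sdiff_subset
      have hsub : mx cs I ∪ A' ⊆ I := Finset.union_subset hmI hA'I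
      exact ⟨hsub.trans hIP, (reg_dn_iff cs hPx hI (hsub.trans hIP)).2
        ⟨Finset.subset_union_left, hsub⟩⟩
  have hdisj : ∀ A' ∈ (I \ mx cs I).powerset, Disjoint (mx cs I) A' := fun A' hA' =>
    Finset.disjoint_of_subset_right (Finset.mem_powerset.1 hA') Finset.disjoint_sdiff
  have hinj : Set.InjOn (fun A' => mx cs I ∪ A') ((I \ mx cs I).powerset : Set (Finset W)) := by
    intro A' hA' A'' hA'' h
    have h1 := hdisj A' (Finset.mem_coe.1 hA')
    have h2 := hdisj A'' (Finset.mem_coe.1 hA'')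
    have h3 : (mx cs I ∪ A') \ mx cs I = (mx cs I ∪ A'') \ mx cs I := by
      simp only at h
      rw [h]
    rwa [Finset.union_sdiff_cancel_left h1, Finset.union_sdiff_cancel_left h2] at h3
  have hval : ∀ A ∈ P.powerset.filter (fun A => dn cs P A = I),
      κ ^ A.card * f A = κ ^ A.card * f I := by
    intro A hA
    rw [Finset.mem_filter, Finset.mem_powerset] at hA
    rw [← hf A hA.1, hA.2]
  rw [Finset.sum_congr rfl hval, ← Finset.sum_mul, hset, Finset.sum_image hinj]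
  congr 1
  have hcard : ∀ A' ∈ (I \ mx cs I).powerset,
      κ ^ (mx cs I ∪ A').card = κ ^ (mx cs I).card * (κ ^ A'.card * 1 ^ ((I \ mx cs I).card - A'.card)) := by
    intro A' hA'
    rw [Finset.card_union_of_disjoint (hdisj A' hA'), pow_add, one_pow, mul_one]
  rw [Finset.sum_congr rfl hcard, ← Finset.mul_sum, Finset.sum_pow_mul_eq_add_pow,
    Finset.card_sdiff_of_subset hmI, add_comm κ 1]

end Pool.Agent.H73.WM
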