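import Pool.Agent.H4.FC.TitsPos
import Pool.Agent.H26.HR.Inv

/-!
# Project WM, module Rt: roots of the geometric representation

`rep cs : W →* Matrix B B ℝ` is the geometric representation (`titsHom` of `Pool/Agent/H4/FC/TitsRel.lean`, with
`tits_pos` in `TitsPos.lean`), a root is `rep w e_s`, `e_s = Pi.single s 1`, `bf` is the (doubled) canonical form.

PLAN. `length_equiv`: `cs.mulEquiv` maps `cs.wordProd ω` to the word product of `ω` in `M.Group` (induction;
`cs.simple s = cs.mulEquiv.symm (M.simple s)` by definition), so the lengths agree, and `rdesc_equiv`.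
`rep_simple_mulVec`: `titsHom_simple`, `refl_mulVec`, `∑ u, kR M s u * x u = bf M e_s x`.
`bf_rep`: induction on words; enough for `w = s`: `bf (x - b(s,x) e_s) (y - b(s,y) e_s) = bf x y` as `bf e_s e_s = 2`
(`kR_self`), `kR_symm`. `root_pos_or`: if `s` is not a right descent of `w`: `tits_pos`; else `w = w' s` with `s` not a right
descent of `w'` and `rep w e_s = - rep w' e_s`. `root_ne_zero`: `bf γ γ = 2`. `root_neg`: `- rep w e_s = rep (w s) e_s`.
`root_reflect`: for `α = rep w e_s`: `rep (w s w⁻¹) γ = γ - bf α γ • α`.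
-/

set_option autoImplicit false

namespace Pool.Agent.H73.WM

open Pool.Agent.H4.FC

universe u

section

variable {B : Type} [Fintype B] [DecidableEq B] {W : Type u} [Group W] {M : CoxeterMatrix B}
  (cs : CoxeterSystem M W)

/-- the geometric representation -/
noncomputable def rep : W →* Matrix B B ℝ := (titsHom M).comp cs.mulEquiv.toMonoidHom

/-- the canonical form, normalized such that `bf α α = 2` for the roots -/
noncomputable def bf (M : CoxeterMatrix B) (x y : B → ℝ) : ℝ := ∑ i, ∑ j, kR M i j * x i * y j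

/-- roots -/
def IsRt (γ : B → ℝ) : Prop := ∃ w s, γ = (rep cs w).mulVec (Pi.single s 1)

/-- vectors with nonnegative coordinates -/
def Nn (γ : B → ℝ) : Prop := ∀ i, 0 ≤ γ i

omit [Fintype B] [DecidableEq B] in
private theorem Rt_simple (s : B) : cs.mulEquiv (cs.simple s) = M.toCoxeterSystem.simple s :=
  cs.mulEquiv.apply_symm_apply _

omit [Fintype B] [DecidableEq B] in
private theorem Rt_wordProd (ω : List B) :
    cs.mulEquiv (cs.wordProd ω) = M.toCoxeterSystem.wordProd ω := by
  induction ω with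
  | nil => rw [CoxeterSystem.wordProd_nil, CoxeterSystem.wordProd_nil, map_one]
  | cons a l ih =>
    rw [CoxeterSystem.wordProd_cons, CoxeterSystem.wordProd_cons, map_mul, ih, Rt_simple]

theorem length_equiv (w : W) : M.toCoxeterSystem.length (cs.mulEquiv w) = cs.length w := by
  refine le_antisymm ?_ ?_
  · obtain ⟨ω, hω, hw⟩ := cs.exists_isReduced w
    have h1 : cs.length w = ω.length := by rw [hw]; exact hω
    rw [h1, hw, Rt_wordProd]
    exact M.toCoxeterSystem.length_wordProd_le ω
  · obtain ⟨ω, hω, hw⟩ := M.toCoxeterSystem.exists_isReduced (cs.mulEquiv w)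
    have h2 : M.toCoxeterSystem.length (cs.mulEquiv w) = ω.length := by rw [hw]; exact hω
    have h1 : w = cs.wordProd ω := by
      apply cs.mulEquiv.injective
      rw [Rt_wordProd, hw]
    rw [h2, h1]
    exact cs.length_wordProd_le ω

theorem rdesc_equiv (w : W) (s : B) :
    M.toCoxeterSystem.IsRightDescent (cs.mulEquiv w) s ↔ cs.IsRightDescent w s := by
  unfold CoxeterSystem.IsRightDescent
  rw [← Rt_simple cs s, ← map_mul, length_equiv, length_equiv]

/-- positivity -/
theorem rep_pos {w : W} {s : B} (h : ¬ cs.IsRightDescent w s) :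
    Nn ((rep cs w).mulVec (Pi.single s 1)) := by
  intro i
  exact tits_pos M (cs.mulEquiv w) s (fun h1 => h ((rdesc_equiv cs w s).1 h1)) i

private theorem Rt_rep_simple (s : B) : rep cs (cs.simple s) = refl (kR M) s := by
  show titsHom M (cs.mulEquiv (cs.simple s)) = _
  rw [Rt_simple, titsHom_simple]

omit cs in
private theorem Rt_bf_single (M : CoxeterMatrix B) (s : B) (x : B → ℝ) :
    bf M (Pi.single s 1) x = ∑ u, kR M s u * x u := by
  unfold bf
  rw [Finset.sum_eq_single s]
  · refine Finset.sum_congr rfl fun j _ => ?_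
    rw [Pi.single_eq_same, mul_one]
  · intro i _ hi
    refine Finset.sum_eq_zero fun j _ => ?_
    rw [Pi.single_eq_of_ne hi, mul_zero, zero_mul]
  · intro h
    exact absurd (Finset.mem_univ s) h

omit cs in
private theorem Rt_bf_symm (M : CoxeterMatrix B) (x y : B → ℝ) : bf M x y = bf M y x := by
  unfold bf
  rw [Finset.sum_comm]
  refine Finset.sum_congr rfl fun i _ => Finset.sum_congr rfl fun j _ => ?_
  rw [kR_symm M j i]
  ring

omit cs in
private theorem Rt_bf_sub (M : CoxeterMatrix B) (x z y : B → ℝ) (a : ℝ) :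
    bf M (x - a • z) y = bf M x y - a * bf M z y := by
  unfold bf
  rw [Finset.mul_sum, ← Finset.sum_sub_distrib]
  refine Finset.sum_congr rfl fun i _ => ?_
  rw [Finset.mul_sum, ← Finset.sum_sub_distrib]
  refine Finset.sum_congr rfl fun j _ => ?_
  rw [Pi.sub_apply, Pi.smul_apply, smul_eq_mul]
  ring

omit cs in
private theorem Rt_bf_sub_right (M : CoxeterMatrix B) (x z y : B → ℝ) (a : ℝ) :
    bf M y (x - a • z) = bf M y x - a * bf M y z := by
  rw [Rt_bf_symm M y, Rt_bf_sub, Rt_bf_symm M x, Rt_bf_symm M z]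

omit cs in
private theorem Rt_bf_self (M : CoxeterMatrix B) (s : B) :
    bf M (Pi.single s 1) (Pi.single s 1) = 2 := by
  rw [Rt_bf_single, Finset.sum_eq_single s]
  · rw [Pi.single_eq_same, mul_one, kR_self]
  · intro u _ hu
    rw [Pi.single_eq_of_ne hu, mul_zero]
  · intro hu
    exact absurd (Finset.mem_univ s) hu

private theorem Rt_rep_simple_mulVec (s : B) (x : B → ℝ) :
    (rep cs (cs.simple s)).mulVec x = x - bf M (Pi.single s 1) x • (Pi.single s 1 : B → ℝ) := by
  rw [Rt_rep_simple, refl_mulVec, Rt_bf_single]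

private theorem Rt_neg_root (w : W) (s : B) :
    -(rep cs w).mulVec (Pi.single s 1) = (rep cs (w * cs.simple s)).mulVec (Pi.single s 1) := by
  rw [map_mul, ← Matrix.mulVec_mulVec, Rt_rep_simple_mulVec, Rt_bf_self, ← Matrix.mulVec_neg]
  congr 1
  rw [two_smul]
  abel

theorem rep_neg {w : W} {s : B} (h : cs.IsRightDescent w s) :
    Nn (-(rep cs w).mulVec (Pi.single s 1)) := by
  rw [Rt_neg_root]
  exact rep_pos cs (cs.isRightDescent_iff_not_isRightDescent_mul.mp h)

theorem rep_simple_mulVec (s : B) (x : B → ℝ) :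
    (rep cs (cs.simple s)).mulVec x = x - bf M (Pi.single s 1) x • (Pi.single s 1 : B → ℝ) :=
  Rt_rep_simple_mulVec cs s x

theorem rep_mul_mulVec (w v : W) (x : B → ℝ) :
    (rep cs (w * v)).mulVec x = (rep cs w).mulVec ((rep cs v).mulVec x) := by
  rw [map_mul, Matrix.mulVec_mulVec]

theorem bf_rep (w : W) (x y : B → ℝ) :
    bf M ((rep cs w).mulVec x) ((rep cs w).mulVec y) = bf M x y := by
  obtain ⟨ω, rfl⟩ := cs.wordProd_surjective w
  induction ω generalizing x y with
  | nil => rw [CoxeterSystem.wordProd_nil, map_one, Matrix.one_mulVec, Matrix.one_mulVec]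
  | cons s l ih =>
    rw [CoxeterSystem.wordProd_cons, rep_mul_mulVec, rep_mul_mulVec, rep_simple_mulVec,
      rep_simple_mulVec, Rt_bf_sub, Rt_bf_sub_right, Rt_bf_sub_right, Rt_bf_self, ih,
      Rt_bf_symm M _ (Pi.single s 1)]
    ring

theorem bf_root {γ : B → ℝ} (h : IsRt cs γ) : bf M γ γ = 2 := by
  obtain ⟨w, s, rfl⟩ := h
  rw [bf_rep, Rt_bf_self]

theorem root_rep {γ : B → ℝ} (h : IsRt cs γ) (w : W) : IsRt cs ((rep cs w).mulVec γ) := by
  obtain ⟨v, s, rfl⟩ := h
  exact ⟨w * v, s, (rep_mul_mulVec cs w v _).symm⟩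

theorem root_neg {γ : B → ℝ} (h : IsRt cs γ) : IsRt cs (-γ) := by
  obtain ⟨v, s, rfl⟩ := h
  exact ⟨v * cs.simple s, s, Rt_neg_root cs v s⟩

theorem root_pos_or {γ : B → ℝ} (h : IsRt cs γ) : Nn γ ∨ Nn (-γ) := by
  obtain ⟨v, s, rfl⟩ := h
  by_cases h1 : cs.IsRightDescent v s
  · exact Or.inr (rep_neg cs h1)
  · exact Or.inl (rep_pos cs h1)

theorem root_ne_zero {γ : B → ℝ} (h : IsRt cs γ) : γ ≠ 0 := by
  rintro rfl
  have h1 := bf_root cs h
  have h2 : bf M (0 : B → ℝ) 0 = 0 := by
    unfold bf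
    refine Finset.sum_eq_zero fun i _ => Finset.sum_eq_zero fun j _ => ?_
    rw [Pi.zero_apply, Pi.zero_apply, mul_zero]
  rw [h2] at h1
  norm_num at h1

theorem root_reflect {α γ : B → ℝ} (hα : IsRt cs α) (hγ : IsRt cs γ) :
    IsRt cs (γ - bf M α γ • α) := by
  obtain ⟨w, s, rfl⟩ := hα
  have e : γ - bf M ((rep cs w).mulVec (Pi.single s 1)) γ • (rep cs w).mulVec (Pi.single s 1) =
      (rep cs w).mulVec ((rep cs (cs.simple s)).mulVec ((rep cs w⁻¹).mulVec γ)) := by
    have h1 : (rep cs w).mulVec ((rep cs w⁻¹).mulVec γ) = γ := by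
      rw [← rep_mul_mulVec, mul_inv_cancel, map_one, Matrix.one_mulVec]
    have h2 : bf M ((rep cs w).mulVec (Pi.single s 1)) γ =
        bf M (Pi.single s 1) ((rep cs w⁻¹).mulVec γ) := by
      rw [← bf_rep cs w (Pi.single s 1) ((rep cs w⁻¹).mulVec γ), h1]
    rw [rep_simple_mulVec, Matrix.mulVec_sub, Matrix.mulVec_smul, h1, h2]
  rw [e]
  exact root_rep cs (root_rep cs (root_rep cs hγ _) _) _

end

end Pool.Agent.H73.WM
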