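import Pool.Agent.H73.WM.Rt

/-!
# Project WM, module Rt2: positive roots and inversions

PLAN. `nn_anti`: `Nn γ`, `Nn (-γ)` imply `γ = 0`.
`simple_pos`: `γ` a nonnegative root, `γ ≠ e_s`: if some coordinate `γ i ≠ 0`, `i ≠ s`, then `(rep s γ) i = γ i > 0`
(`rep_simple_mulVec`), so the root `rep s γ` is nonnegative (`root_pos_or`); otherwise `γ = c e_s`, `c ≥ 0`, `2 c² = 2`
(`bf_root`), `c = 1`.
`finite_neg`: induction on a word for `w`: `{γ ≥ 0 : rep (s v) γ ≤ 0} ⊆ {γ ≥ 0 : rep v γ ≤ 0} ∪ {rep v⁻¹ e_s}` by `simple_pos`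
(for `w = 1`: empty as `γ ≠ 0`).
`exists_root`: `t = w s w⁻¹`, `s` not a right descent of `w` (otherwise replace `w` by `w s`), `γ = rep w e_s ≥ 0` (`rep_pos`);
`t ∈ N(x)`: `x = w (w⁻¹ x)`, `inv_mul_iff` (`Pool/Agent/H26/HR/Inv.lean`) and `t ∉ N(w)` (`ℓ(t w) = ℓ(w s) > ℓ(w)`) give
`t ∈ N(x) ↔ s ∈ N(w⁻¹ x) ↔ s` is a left descent of `w⁻¹ x` `↔ s` is a right descent of `x⁻¹ w`
`↔ rep x⁻¹ γ = rep (x⁻¹ w) e_s ≤ 0` (`rep_pos`, `rep_neg`, `root_ne_zero`).
-/

set_option autoImplicit false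

namespace Pool.Agent.H73.WM

open Pool.Agent.H4.FC Pool.Agent.H26.HR

universe u

section

variable {B : Type} [Fintype B] [DecidableEq B] {W : Type u} [Group W] {M : CoxeterMatrix B}
  (cs : CoxeterSystem M W)

omit [Fintype B] [DecidableEq B] in
theorem nn_anti {γ : B → ℝ} (h : Nn γ) (h' : Nn (-γ)) : γ = 0 := by
  funext i
  have h1 := h i
  have h2 : 0 ≤ -γ i := h' i
  rw [Pi.zero_apply]
  exact le_antisymm (by linarith) h1

theorem simple_pos {γ : B → ℝ} (h : IsRt cs γ) (hn : Nn γ) {s : B} (hs : γ ≠ Pi.single s 1) :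
    Nn ((rep cs (cs.simple s)).mulVec γ) := by
  by_cases hex : ∃ i, i ≠ s ∧ γ i ≠ 0
  · obtain ⟨i, his, hi⟩ := hex
    rcases root_pos_or cs (root_rep cs h (cs.simple s)) with h1 | h1
    · exact h1
    · exfalso
      have h2 : 0 ≤ -((rep cs (cs.simple s)).mulVec γ i) := h1 i
      have h3 : (rep cs (cs.simple s)).mulVec γ i = γ i := by
        rw [rep_simple_mulVec]
        simp [Pi.single_eq_of_ne his]
      rw [h3] at h2
      have h4 := hn i
      exact hi (le_antisymm (by linarith) h4)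
  · exfalso
    have h0 : ∀ i, i ≠ s → γ i = 0 := by
      intro i hi
      by_contra hne
      exact hex ⟨i, hi, hne⟩
    have h2 := bf_root cs h
    have h3 : bf M γ γ = 2 * γ s * γ s := by
      unfold bf
      rw [Finset.sum_eq_single s, Finset.sum_eq_single s, kR_self]
      · intro j _ hj
        rw [h0 j hj, mul_zero]
      · intro hj
        exact absurd (Finset.mem_univ s) hj
      · intro i _ hi
        refine Finset.sum_eq_zero fun j _ => ?_
        rw [h0 i hi, mul_zero, zero_mul]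
      · intro hj
        exact absurd (Finset.mem_univ s) hj
    rw [h3] at h2
    have h4 := hn s
    have h5 : γ s = 1 := by nlinarith
    apply hs
    funext i
    by_cases hi : i = s
    · subst hi
      rw [Pi.single_eq_same, h5]
    · rw [Pi.single_eq_of_ne hi, h0 i hi]

theorem finite_neg (w : W) : {γ | IsRt cs γ ∧ Nn γ ∧ Nn (-(rep cs w).mulVec γ)}.Finite := by
  induction w using cs.simple_induction_left with
  | one =>
    convert Set.finite_empty
    rw [Set.eq_empty_iff_forall_notMem]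
    rintro γ ⟨h1, h2, h3⟩
    rw [map_one, Matrix.one_mulVec] at h3
    exact root_ne_zero cs h1 (nn_anti h2 h3)
  | mul_simple_left v s ih =>
    refine (ih.union (Set.finite_singleton ((rep cs v⁻¹).mulVec (Pi.single s 1)))).subset ?_
    rintro γ ⟨h1, h2, h3⟩
    rw [rep_mul_mulVec] at h3
    have h4 := root_rep cs h1 v
    rcases root_pos_or cs h4 with h5 | h5
    · right
      by_cases h6 : (rep cs v).mulVec γ = Pi.single s 1
      · rw [Set.mem_singleton_iff, ← h6, ← rep_mul_mulVec, inv_mul_cancel, map_one,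
          Matrix.one_mulVec]
      · exfalso
        exact root_ne_zero cs (root_rep cs h4 (cs.simple s)) (nn_anti (simple_pos cs h4 h5 h6) h3)
    · left
      exact ⟨h1, h2, h5⟩

private theorem exists_root_aux (w : W) (s : B) (hw : ¬ cs.IsRightDescent w s) :
    ∃ γ, IsRt cs γ ∧ Nn γ ∧ ∀ x, cs.IsLeftInversion x (w * cs.simple s * w⁻¹) ↔
      Nn (-(rep cs x⁻¹).mulVec γ) := by
  refine ⟨(rep cs w).mulVec (Pi.single s 1), ⟨w, s, rfl⟩, rep_pos cs hw, fun x => ?_⟩
  have ht : cs.IsReflection (w * cs.simple s * w⁻¹) := ⟨w, s, rfl⟩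
  have h1 := inv_mul_iff cs ht w (w⁻¹ * x)
  rw [mul_inv_cancel_left] at h1
  have h2 : w⁻¹ * (w * cs.simple s * w⁻¹) * w = cs.simple s := by group
  rw [h2, cs.isLeftInversion_simple_iff_isLeftDescent] at h1
  have h3 : ¬ cs.IsLeftInversion w (w * cs.simple s * w⁻¹) := by
    rintro ⟨-, h⟩
    rw [inv_mul_cancel_right] at h
    exact hw h
  have h4 : cs.IsLeftInversion x (w * cs.simple s * w⁻¹) ↔ cs.IsRightDescent (x⁻¹ * w) s := by
    rw [h1, ← cs.isRightDescent_inv_iff, mul_inv_rev, inv_inv]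
    tauto
  rw [h4, ← rep_mul_mulVec]
  constructor
  · exact fun h => rep_neg cs h
  · intro h
    by_contra hn
    exact root_ne_zero cs ⟨x⁻¹ * w, s, rfl⟩ (nn_anti (rep_pos cs hn) h)

theorem exists_root {t : W} (ht : cs.IsReflection t) :
    ∃ γ, IsRt cs γ ∧ Nn γ ∧ ∀ x, cs.IsLeftInversion x t ↔ Nn (-(rep cs x⁻¹).mulVec γ) := by
  obtain ⟨w, s, rfl⟩ := ht
  by_cases hw : cs.IsRightDescent w s
  · have h1 := cs.isRightDescent_iff_not_isRightDescent_mul.mp hw
    have h2 := exists_root_aux cs (w * cs.simple s) s h1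
    have h3 : w * cs.simple s * cs.simple s * (w * cs.simple s)⁻¹ = w * cs.simple s * w⁻¹ := by
      rw [mul_inv_rev, cs.inv_simple, cs.simple_mul_simple_cancel_right, ← mul_assoc]
    rwa [h3] at h2
  · exact exists_root_aux cs w s hw

end

end Pool.Agent.H73.WM
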