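import Pool.Agent.H73.WM.Fin
import Pool.Agent.H73.HVN.Bridge

/-!
# Project WM: the hypothesis of the statement

`(W, S)` a Coxeter system, `L ⊆ S`.
-/

set_option autoImplicit false

namespace Pool.Agent.H73.WM

universe u v

variable {B : Type v} {W : Type u} [Group W] {M : CoxeterMatrix B} (cs : CoxeterSystem M W)

/-- The condition on `L`: `m_{st}` is `2` or `∞` for all `s ∉ L`, `t ∈ L` (in Mathlib `M i j = 0` encodes
`m_{ij} = ∞`), and every finite set `K` of generators outside `L` with `m_{st} < ∞` for all `s, t ∈ K`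
generates a finite subgroup. There is no condition on `m_{st}` for `s, t ∈ L`. -/
def Mixed (L : Set B) : Prop :=
  (∀ i, i ∉ L → ∀ j ∈ L, M i j = 2 ∨ M i j = 0) ∧
    ∀ K : Finset B, (∀ i ∈ K, i ∉ L) → (∀ i ∈ K, ∀ j ∈ K, M i j ≠ 0) →
      Finite (Subgroup.closure (cs.simple '' (K : Set B)))

/-- For `L = S` there is no condition. -/
theorem mixed_univ : Mixed cs Set.univ := by
  refine ⟨fun i hi => absurd (Set.mem_univ i) hi, fun K hK _ => ?_⟩
  have h0 : (K : Set B) = ∅ := by
    ext i
    simp only [Finset.mem_coe, Set.mem_empty_iff_false, iff_false]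
    exact fun hi => hK i hi (Set.mem_univ i)
  rw [h0, Set.image_empty, Subgroup.closure_empty]
  infer_instance

/-- For `L = ∅` the condition is that `(W, S)` is of type FC. -/
theorem mixed_empty (hFC : Pool.Agent.H73.HVN.St.IsFC cs) : Mixed cs ∅ :=
  ⟨fun _ _ j hj => absurd hj (Set.notMem_empty j), fun K _ h => hFC K h⟩

end Pool.Agent.H73.WM
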