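import Pool.Agent.H73.WM.Krs
import Pool.Agent.H73.HVN.Trunc

/-!
# Project WM, module Tail: the truncated multiplier `r ^ |w|_L`

PLAN. `tail_sum`: the series `∑ 4 (p+1)^d 2^d r^p` converges (`summable_pow_mul_geometric_of_norm_lt_one`, or the ratio test), so
its tails tend to `0`. `Dg_tail`: `|Dg g m p| ≤ ∑_j C(m,j) g (p + 2j) ≤ 2^m r^p [n < p + 2 m]` for
`g k = if n < k then r^k else 0` (`Nat.sum_range_choose`), and `2^m ≤ 2^d`, `[n < p + 2m] ≤ [n < p + 2d]`.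

`exists_truncL`: `Φ₁` from `Mix.exists_psi` (`Pool/Agent/H73/HM/Map.lean`), `Φ₂` from `exists_Fg` with `g` and
`G p = if n < p + 2 d then 2^d * r^p else 0`, `n` so large that `K ≤ ε`; `Φ = Φ₁ - Φ₂`: `IsNormalMap.sub`,
`CBNormLE.sub`, `.mono`, `IsMult.sub` as at the end of `exists_trunc` (`Pool/Agent/H73/HVN/Trunc.lean`).
-/

set_option autoImplicit false

open scoped ComplexOrder InnerProductSpace
open Filter Topology

namespace Pool.Agent.H73.WM

open Pool.Agent.H73.HVN Pool.Agent.H26.HR Pool.Agent.H73.HM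

universe u v

variable {B : Type v} {W : Type u} [Group W] {M : CoxeterMatrix B} (cs : CoxeterSystem M W)
variable {L : Set B} {χ : W →* ℤˣ}

theorem tail_sum (d : ℕ) {r : ℝ} (h0 : 0 < r) (h1 : r < 1) {ε : ℝ} (hε : 0 < ε) (n₀ : ℕ) :
    ∃ n : ℕ, n₀ ≤ n ∧ ∃ K : ℝ, K ≤ ε ∧ HasSum (fun p : ℕ => 4 * ((p : ℝ) + 1) ^ d *
      (if n < p + 2 * d then 2 ^ d * r ^ p else 0)) K := by
  have hF : Summable (fun p : ℕ => 4 * ((p : ℝ) + 1) ^ d * (2 ^ d * r ^ p)) := by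
    have h2 : Summable (fun p : ℕ => (p : ℝ) ^ d * r ^ p) :=
      summable_pow_mul_geometric_of_norm_lt_one d (by
        rw [Real.norm_eq_abs, abs_of_pos h0]
        exact h1)
    have h3 := ((summable_nat_add_iff 1).mpr h2).mul_left (4 * 2 ^ d / r)
    refine h3.congr fun p => ?_
    rw [Nat.cast_add, Nat.cast_one, pow_succ]
    field_simp
  have ht := tendsto_sum_nat_add (fun p : ℕ => 4 * ((p : ℝ) + 1) ^ d * (2 ^ d * r ^ p))
  obtain ⟨k, hk, hk0⟩ := ((ht.eventually (gt_mem_nhds hε)).and (eventually_ge_atTop n₀)).exists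
  refine ⟨k + 2 * d, by omega, ?_⟩
  have hle : ∀ p : ℕ, 4 * ((p : ℝ) + 1) ^ d *
      (if k + 2 * d < p + 2 * d then 2 ^ d * r ^ p else 0) ≤
      4 * ((p : ℝ) + 1) ^ d * (2 ^ d * r ^ p) := by
    intro p
    refine mul_le_mul_of_nonneg_left ?_ (by positivity)
    split_ifs
    · exact le_rfl
    · positivity
  have h0' : ∀ p : ℕ, 0 ≤ 4 * ((p : ℝ) + 1) ^ d *
      (if k + 2 * d < p + 2 * d then 2 ^ d * r ^ p else 0) := by
    intro p
    refine mul_nonneg (by positivity) ?_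
    split_ifs
    · positivity
    · exact le_rfl
  have hs : Summable (fun p : ℕ => 4 * ((p : ℝ) + 1) ^ d *
      (if k + 2 * d < p + 2 * d then 2 ^ d * r ^ p else 0)) :=
    Summable.of_nonneg_of_le h0' hle hF
  refine ⟨_, ?_, hs.hasSum⟩
  rw [← hs.sum_add_tsum_nat_add k]
  have hz : ∑ p ∈ Finset.range k, 4 * ((p : ℝ) + 1) ^ d *
      (if k + 2 * d < p + 2 * d then 2 ^ d * r ^ p else 0) = 0 := by
    refine Finset.sum_eq_zero fun p hp => ?_
    rw [Finset.mem_range] at hp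
    rw [if_neg (by omega), mul_zero]
  rw [hz, zero_add]
  refine le_trans (Summable.tsum_le_tsum (fun p => hle (p + k)) ?_ ?_) hk.le
  · exact (summable_nat_add_iff (f := fun p : ℕ => 4 * ((p : ℝ) + 1) ^ d *
      (if k + 2 * d < p + 2 * d then 2 ^ d * r ^ p else 0)) k).mpr hs
  · exact (summable_nat_add_iff (f := fun p : ℕ => 4 * ((p : ℝ) + 1) ^ d *
      (2 ^ d * r ^ p)) k).mpr hF

theorem Dg_tail {d n : ℕ} {r : ℝ} (h0 : 0 < r) (h1 : r < 1) {m : ℕ} (hm : m ≤ d) (p : ℕ) :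
    |Dg (fun k => if n < k then r ^ k else 0) m p| ≤
      (if n < p + 2 * d then 2 ^ d * r ^ p else 0) := by
  unfold Dg
  refine (Finset.abs_sum_le_sum_abs _ _).trans ?_
  have h2 : ∀ j ∈ Finset.range (m + 1),
      |(-1 : ℝ) ^ j * (m.choose j : ℝ) * (if n < p + 2 * j then r ^ (p + 2 * j) else 0)| ≤
        (m.choose j : ℝ) * (if n < p + 2 * d then r ^ p else 0) := by
    intro j hj
    rw [Finset.mem_range] at hj
    rw [abs_mul, abs_mul, abs_pow, abs_neg, abs_one, one_pow, one_mul, Nat.abs_cast]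
    refine mul_le_mul_of_nonneg_left ?_ (Nat.cast_nonneg _)
    by_cases h : n < p + 2 * j
    · rw [if_pos h, if_pos (by omega), abs_of_nonneg (by positivity)]
      exact pow_le_pow_of_le_one h0.le h1.le (by omega)
    · rw [if_neg h, abs_zero]
      split_ifs
      · positivity
      · exact le_rfl
  refine (Finset.sum_le_sum h2).trans ?_
  rw [← Finset.sum_mul]
  have h3 : ∑ j ∈ Finset.range (m + 1), (m.choose j : ℝ) = 2 ^ m := by
    have := Nat.sum_range_choose m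
    exact_mod_cast this
  rw [h3]
  split_ifs
  · refine mul_le_mul_of_nonneg_right ?_ (by positivity)
    exact pow_le_pow_right₀ (by norm_num) hm
  · simp

theorem exists_truncL (hM : Mix cs L χ) {q : B → ℝ} (hq : Admissible cs q)
    (hL : ∀ i ∈ L, q i = 1) {d : ℕ} (hd : DimLe cs χ d) {r : ℝ} (h0 : 0 < r) (h1 : r < 1)
    {ε : ℝ} (hε : 0 < ε) (n₀ : ℕ) :
    ∃ n : ℕ, n₀ ≤ n ∧ ∃ Φ : HA cs q →ₗ[ℂ] HA cs q, IsNormalMap (HA cs q) Φ ∧
      CBNormLE (HA cs q) Φ (1 + ε) ∧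
      IsMult cs q Φ (fun w => if nu cs χ w ≤ n then ((r ^ nu cs χ w : ℝ) : ℂ) else 0) := by
  obtain ⟨n, hn, K, hK, hs⟩ := tail_sum d h0 h1 hε n₀
  obtain ⟨Φ₁, hN1, hB1, hM1, -⟩ := hM.exists_psi cs hq hL h0 h1
  obtain ⟨Φ₂, hN2, hB2, hM2⟩ := exists_Fg cs hM hq hL hd (fun k => if n < k then r ^ k else 0)
    (fun m hm p => Dg_tail h0 h1 hm p) hs
  refine ⟨n, hn, Φ₁ - Φ₂, hN1.sub hN2, (hB1.sub hB2).mono (by linarith), ?_⟩
  have hM' := IsMult.sub cs hM1 hM2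
  have e : (fun w => ((r ^ (nl cs χ w⁻¹).card : ℝ) : ℂ) -
      (((fun k => if n < k then r ^ k else 0) (nu cs χ w) : ℝ) : ℂ)) =
      fun w => if nu cs χ w ≤ n then ((r ^ nu cs χ w : ℝ) : ℂ) else 0 := by
    funext w
    change ((r ^ nu cs χ w : ℝ) : ℂ) - ((if n < nu cs χ w then r ^ nu cs χ w else 0 : ℝ) : ℂ) = _
    by_cases h : nu cs χ w ≤ n
    · rw [if_pos h, if_neg (by omega)]
      simp
    · rw [if_neg h, if_pos (by omega)]
      simp
  rw [← e]
  exact hM'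

end Pool.Agent.H73.WM
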